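import Pool.Agent.Y483.ThmH
import Pool.Agent.T6.H32.MG.Act

/-!
The two complexes and the comparison map for the Magnus group of a graph with an action of a group
with finite vertex stabilizers.
-/

set_option autoImplicit false

namespace Pool.Agent.T6.H32.MG

open Finsupp Pool.Agent.Y483

/-- A group `G` over `Γ` with a crossed homomorphism to the `1`-chains of the graph, identifying
`G` with the set of pairs `(m, g)` with `∂ m = g v₀ - v₀`, for a connected graph. -/
structure Mag (Γ : Type) {V E : Type} [Group Γ] [MulAction Γ V] [MulAction Γ E] (Q : Edges V E)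
    (v₀ : V) (G : Type) [Group G] where
  /-- The projection to `Γ`. -/
  γ : G →* Γ
  /-- The crossed homomorphism. -/
  c : G → (E →₀ ℤ)
  mul : ∀ g h, c (g * h) = c g + gE (γ g) (c h)
  del : ∀ g, Q.del (c g) = single (γ g • v₀) 1 - single v₀ 1
  inj : ∀ g h, γ g = γ h → c g = c h → g = h
  sur : ∀ (m : E →₀ ℤ) (v : Γ), Q.del m = single (v • v₀) 1 - single v₀ 1 → ∃ g, γ g = v ∧ c g = m
  gen : ∀ v : V, ∃ m, Q.del m = single v 1 - single v₀ 1

section Weights

variable (Γ V : Type) [Group Γ] [MulAction Γ V]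

/-- An equivariant family of weights of sum `1` on `Γ`, indexed by `V`. -/
structure Wts where
  /-- The weights. -/
  w : V → (Γ →₀ ℚ)
  sum : ∀ v, sumC Γ (w v) = 1
  smul : ∀ (g : Γ) (v : V), w (g • v) = (w v).mapDomain (fun x => g * x)

/-- The representative of the orbit. -/
noncomputable def rpt (v : V) : V := (Quotient.mk (MulAction.orbitRel Γ V) v).out

theorem rpt_smul (g : Γ) (v : V) : rpt Γ V (g • v) = rpt Γ V v := by
  unfold rpt
  congr 1
  exact Quotient.sound (s := MulAction.orbitRel Γ V) ⟨g, rfl⟩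

theorem exists_rpt (v : V) : ∃ g : Γ, g • rpt Γ V v = v := by
  have h : (MulAction.orbitRel Γ V) (rpt Γ V v) v := Quotient.mk_out (s := MulAction.orbitRel Γ V) v
  obtain ⟨g, hg⟩ := (MulAction.orbitRel Γ V).symm h
  exact ⟨g, hg⟩

/-- The elements which move the representative to `v`. -/
def mov (v : V) : Set Γ := {g | g • rpt Γ V v = v}

theorem mov_finite (h : ∀ v : V, Finite (MulAction.stabilizer Γ v)) (v : V) :
    (mov Γ V v).Finite := by
  obtain ⟨g₀, hg₀⟩ := exists_rpt Γ V v
  have hf : (MulAction.stabilizer Γ v : Set Γ).Finite := Set.toFinite _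
  refine (hf.image (fun g => g * g₀)).subset ?_
  intro g hg
  refine ⟨g * g₀⁻¹, ?_, by simp⟩
  have h1 : g • rpt Γ V v = v := hg
  change (g * g₀⁻¹) • v = v
  conv_lhs => rw [← hg₀]
  rw [mul_smul, inv_smul_smul, h1]

open Classical in
/-- Finite stabilizers give weights. -/
noncomputable def wts (h : ∀ v : V, Finite (MulAction.stabilizer Γ v)) : Wts Γ V where
  w v := ((mov_finite Γ V h v).toFinset.card : ℚ)⁻¹ •
    ∑ g ∈ (mov_finite Γ V h v).toFinset, single g 1
  sum v := by
    rw [map_smul, map_sum]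
    simp only [sumC_single, Finset.sum_const, nsmul_eq_mul, mul_one, smul_eq_mul]
    apply inv_mul_cancel₀
    obtain ⟨g₀, hg₀⟩ := exists_rpt Γ V v
    have : (mov_finite Γ V h v).toFinset.card ≠ 0 := by
      rw [Finset.card_ne_zero]
      exact ⟨g₀, (mov_finite Γ V h v).mem_toFinset.mpr hg₀⟩
    exact_mod_cast this
  smul g v := by
    have e : (mov_finite Γ V h (g • v)).toFinset =
        (mov_finite Γ V h v).toFinset.image (fun x => g * x) := by
      ext x
      simp only [Set.Finite.mem_toFinset, Finset.mem_image, mov, Set.mem_setOf_eq, rpt_smul]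
      constructor
      · intro hx
        exact ⟨g⁻¹ * x, by rw [mul_smul, hx, inv_smul_smul], by simp⟩
      · rintro ⟨y, hy, rfl⟩
        rw [mul_smul, hy]
    rw [e, Finset.card_image_of_injective _ (mul_right_injective g),
      Finset.sum_image (fun a _ b _ hab => mul_right_injective g hab), Finsupp.mapDomain_smul,
      Finsupp.mapDomain_finset_sum]
    simp only [Finsupp.mapDomain_single]

variable {Γ V} {C : Type} [AddCommGroup C] [Module ℚ C]

/-- The element `p ⊗ y` of `ℚ[Γ] ⊗ C`. -/
noncomputable def spr (C : Type) [AddCommGroup C] [Module ℚ C] :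
    (Γ →₀ ℚ) →ₗ[ℚ] (C →ₗ[ℚ] (Γ →₀ C)) :=
  Finsupp.linearCombination ℚ (fun v => lsingle v)

theorem spr_single (v : Γ) (r : ℚ) (y : C) : spr C (single v r) y = single v (r • y) := by
  simp [spr]

theorem augM_spr (p : Γ →₀ ℚ) (y : C) : augM Γ C (spr C p y) = (sumC Γ p) • y := by
  induction p using Finsupp.induction_linear with
  | zero => simp
  | add a b ha hb => rw [map_add, LinearMap.add_apply, map_add, ha, hb, map_add, add_smul]
  | single v r => rw [spr_single, augM_single, sumC_single]

theorem indRep_spr (ρ : Representation ℚ Γ C) (g : Γ) (p : Γ →₀ ℚ) (y : C) :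
    indRep ρ g (spr C p y) = spr C (p.mapDomain (fun x => g * x)) (ρ g y) := by
  induction p using Finsupp.induction_linear with
  | zero => simp
  | add a b ha hb =>
    rw [map_add, LinearMap.add_apply, map_add, ha, hb, Finsupp.mapDomain_add, map_add,
      LinearMap.add_apply]
  | single v r => rw [spr_single, indRep_single, Finsupp.mapDomain_single, spr_single, map_smul]

/-- The element `∑ a_v w_v ⊗ y` of `ℚ[Γ] ⊗ C`. -/
noncomputable def Wv (W : Wts Γ V) (C : Type) [AddCommGroup C] [Module ℚ C] :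
    (V →₀ ℤ) →ₗ[ℤ] (C →ₗ[ℚ] (Γ →₀ C)) :=
  Finsupp.linearCombination ℤ (fun v => spr C (W.w v))

theorem Wv_single (W : Wts Γ V) (v : V) (y : C) :
    Wv W C (single v 1) y = spr C (W.w v) y := by
  simp [Wv]

theorem augM_Wv (W : Wts Γ V) (a : V →₀ ℤ) (y : C) :
    augM Γ C (Wv W C a y) = (degZ V a : ℚ) • y := by
  apply int_ind (fun a => augM Γ C (Wv W C a y)) (fun a => (degZ V a : ℚ) • y)
  · intro a b; simp only [map_add, LinearMap.add_apply]
  · intro a b; simp only [map_add]; rw [Int.cast_add, add_smul]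
  · intro v
    simp only [Wv_single, augM_spr, W.sum, degZ_single, Int.cast_one, one_smul]

theorem indRep_Wv (W : Wts Γ V) (ρ : Representation ℚ Γ C) (g : Γ) (a : V →₀ ℤ) (y : C) :
    indRep ρ g (Wv W C a y) = Wv W C (wV g a) (ρ g y) := by
  apply int_ind (fun a => indRep ρ g (Wv W C a y)) (fun a => Wv W C (wV g a) (ρ g y))
  · intro a b; simp only [map_add, LinearMap.add_apply]
  · intro a b; simp only [map_add, LinearMap.add_apply]
  · intro v
    simp only [Wv_single, wV_single, indRep_spr, W.smul]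

end Weights

section Right

variable {Γ V E : Type} [Group Γ] [MulAction Γ V] [MulAction Γ E] {Q : Edges V E} {v₀ : V} {G : Type}
  [Group G] (M : Mag Γ Q v₀ G)

/-- The action of `G` on `Γ`. -/
def Mag.σB : G →* Equiv.Perm Γ := (MulAction.toPermHom Γ Γ).comp M.γ

theorem Mag.σB_apply (g : G) (v : Γ) : M.σB g v = M.γ g * v := rfl

/-- The representation of `G` on `ℚ[Γ]`. -/
noncomputable abbrev Mag.repB : Representation ℚ G (Γ →₀ ℚ) := permRep M.σB

theorem dd_rB (q : ℕ) (g : Γ) (z : Bq Γ G (q + 1)) :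
    dd M.repB q (rB Γ G (q + 1) g z) = rB Γ G q g (dd M.repB q z) := by
  apply dd_mp (ρ := M.repB) (τ := M.repB) (MonoidHom.id G) (rightR g)
  intro h m
  have e : (rightR g) ∘ₗ (M.repB h) = (M.repB h) ∘ₗ (rightR g) := by
    apply lhom_ext
    intro v r
    rw [LinearMap.comp_apply, LinearMap.comp_apply, permRep_single, rightR_single, rightR_single,
      permRep_single, M.σB_apply, M.σB_apply, mul_assoc]
  exact DFunLike.congr_fun e m

end Right

section Left

variable {Γ V E : Type} [Group Γ] [MulAction Γ V] [MulAction Γ E] {Q : Edges V E}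

/-- The action of `Γ` on the second complex. -/
noncomputable def rV (Γ V E : Type) [Group Γ] [MulAction Γ V] [MulAction Γ E] (n q : ℕ) :
    Representation ℚ Γ (T q (HH E) (MM V n)) where
  toFun g := wC n q g
  map_one' := by
    apply TI_ext
    intro x a r
    rw [wC, mp_single, wM_single]
    have e1 : wAug n (1 : Γ) a = a := by
      apply Subtype.ext
      change wV 1 a.1 = a.1
      apply int_ind (fun b => wV (1 : Γ) b) (fun b => b) (fun a b => by simp only [map_add])
        (fun a b => rfl)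
      intro v
      simp only [wV_single, one_smul]
    have e2 : (gH (1 : Γ) : HH E → HH E) ∘ x = x := by
      funext i
      change Multiplicative.ofAdd (gE (1 : Γ) (x i).toAdd) = x i
      have : gE (1 : Γ) (x i).toAdd = (x i).toAdd := by
        apply int_ind (fun b => gE (1 : Γ) b) (fun b => b) (fun a b => by simp only [map_add])
          (fun a b => rfl)
        intro v
        simp only [gE_single, one_smul]
      rw [this]; rfl
    rw [e1, e2]
    rfl
  map_mul' g h := by
    apply TI_ext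
    intro x a r
    rw [Module.End.mul_apply, wC, wC, wC, mp_single, mp_single, mp_single, wM_single, wM_single,
      wM_single]
    have e1 : wAug n (g * h) a = wAug n g (wAug n h a) := by
      apply Subtype.ext
      change wV (g * h) a.1 = wV g (wV h a.1)
      apply int_ind (fun b => wV (g * h) b) (fun b => wV g (wV h b))
        (fun a b => by simp only [map_add]) (fun a b => by simp only [map_add])
      intro v
      simp only [wV_single, mul_smul]
    have e2 : (gH (g * h) : HH E → HH E) ∘ x = gH g ∘ gH h ∘ x := by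
      funext i
      change Multiplicative.ofAdd (gE (g * h) (x i).toAdd) =
        Multiplicative.ofAdd (gE g (gE h (x i).toAdd))
      congr 1
      apply int_ind (fun b => gE (g * h) b) (fun b => gE g (gE h b))
        (fun a b => by simp only [map_add]) (fun a b => by simp only [map_add])
      intro v
      simp only [gE_single, mul_smul]
    rw [e1, e2]

theorem avg_rV (Wt₀ : Wts Γ V) (n q : ℕ) (hn : n ≠ 0) : IsAvg (rV Γ V E n q) := by
  let W : T q (HH E) (MM V n) →ₗ[ℚ] (Γ →₀ T q (HH E) (MM V n)) := lsum ℚ fun x => lsum ℚ fun a =>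
    (n : ℚ)⁻¹ • ((Wv Wt₀ (T q (HH E) (MM V n)) a.1) ∘ₗ (lsingle x) ∘ₗ (lsingle a))
  have hW : ∀ x a r, W (single x (single a r)) =
      (n : ℚ)⁻¹ • Wv Wt₀ (T q (HH E) (MM V n)) a.1 (single x (single a r)) := by
    intro x a r
    simp only [W, Finsupp.lsum_single]
    rfl
  refine ⟨W, fun c => ?_, fun g c => ?_⟩
  · have h : (augM Γ (T q (HH E) (MM V n))) ∘ₗ W = LinearMap.id := by
      apply TI_ext
      intro x a r
      rw [LinearMap.comp_apply, hW, map_smul, augM_Wv, a.2, smul_smul]
      have hn' : (n : ℚ) ≠ 0 := by exact_mod_cast hn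
      have e : (n : ℚ)⁻¹ * ((n : ℤ) : ℚ) = 1 := by
        push_cast
        exact inv_mul_cancel₀ hn'
      rw [e, one_smul]
      rfl
    exact DFunLike.congr_fun h c
  · have h : W ∘ₗ (rV Γ V E n q g) = (indRep (rV Γ V E n q) g) ∘ₗ W := by
      apply TI_ext
      intro x a r
      have e : rV Γ V E n q g (single x (single a r)) =
          single (gH g ∘ x) (single (wAug n g a) r) := by
        change wC n q g _ = _
        rw [wC, mp_single, wM_single]
      rw [LinearMap.comp_apply, LinearMap.comp_apply, e, hW, hW, map_smul, indRep_Wv, e]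
      rfl
    exact DFunLike.congr_fun h c

end Left

section Map

variable {Γ V E : Type} [Group Γ] [MulAction Γ V] [MulAction Γ E] {Q : Edges V E} {v₀ : V} {G : Type}
  [Group G] (M : Mag Γ Q v₀ G)

/-- The labels of the vertices. -/
noncomputable def Mag.lab (v : Γ) (x : G) : E →₀ ℤ := gE v⁻¹ (M.c x)

/-- The family of maps, on homogeneous chains. -/
noncomputable def Mag.Fv (n q : ℕ) (v : Γ) : T (q + 1) G ℚ →ₗ[ℚ] T q (HH E) (MM V n) :=
  (Th Q (single (v⁻¹ • v₀) 1) n q) ∘ₗ (mp (q + 1) (M.lab v) LinearMap.id)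

/-- The comparison map, on homogeneous chains. -/
noncomputable def Mag.fh (n q : ℕ) : T (q + 1) G (Γ →₀ ℚ) →ₗ[ℚ] T q (HH E) (MM V n) :=
  comb (q + 1) (M.Fv n q)

/-- The comparison map. -/
noncomputable def Mag.f (n q : ℕ) : Bq Γ G q →ₗ[ℚ] T q (HH E) (MM V n) := (M.fh n q) ∘ₗ (sg q)

theorem Mag.lab_mul (g x : G) (v : Γ) :
    M.lab (M.γ g * v) (g * x) = gE (M.γ g * v)⁻¹ (M.c g) + M.lab v x := by
  unfold Mag.lab
  rw [M.mul, map_add, ← gE_mul (M.γ g * v)⁻¹ (M.γ g), mul_inv_rev, inv_mul_cancel_right]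

theorem Mag.fh_tr (hQ : Eqv Γ Q) (n q : ℕ) (g : G) (z : T (q + 1) G (Γ →₀ ℚ)) :
    M.fh n q (tr M.repB (q + 1) g z) = M.fh n q z := by
  have h : (M.fh n q) ∘ₗ (tr M.repB (q + 1) g) = M.fh n q := by
    apply TI_ext
    intro x v r
    rw [LinearMap.comp_apply, tr, mp_single, permRep_single, M.σB_apply, Mag.fh, comb_single,
      comb_single, Mag.Fv, Mag.Fv, LinearMap.comp_apply, LinearMap.comp_apply, mp_single,
      mp_single]
    have e1 : (single (M.lab (M.γ g * v) ∘ (fun x => g * x) ∘ x) ((LinearMap.id : ℚ →ₗ[ℚ] ℚ) r) :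
        T (q + 1) (E →₀ ℤ) ℚ) = mp (q + 1) (fun y => gE (M.γ g * v)⁻¹ (M.c g) + y) LinearMap.id
          (single (M.lab v ∘ x) ((LinearMap.id : ℚ →ₗ[ℚ] ℚ) r)) := by
      rw [mp_single]
      congr 1
      funext i
      exact M.lab_mul g (x i) v
    rw [e1, Th_translate, del_wE hQ, M.del]
    congr 2
    rw [map_sub, wV_single, wV_single, ← mul_smul, mul_inv_rev, inv_mul_cancel_right]
    abel
  exact DFunLike.congr_fun h z

theorem Mag.fh_bd (n q : ℕ) (z : T (q + 2) G (Γ →₀ ℚ)) :
    dd (repM Q n) q (M.fh n (q + 1) z) = M.fh n q (bd (q + 1) z) := by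
  have h : (dd (repM Q n) q) ∘ₗ (M.fh n (q + 1)) = (M.fh n q) ∘ₗ (bd (q + 1)) := by
    apply TI_ext
    intro x v r
    rw [LinearMap.comp_apply, LinearMap.comp_apply, Mag.fh, Mag.fh, comb_bd, comb_single,
      comb_single, Mag.Fv, Mag.Fv, LinearMap.comp_apply, LinearMap.comp_apply,
      LinearMap.comp_apply, dd_Th, bd_mp]
  exact DFunLike.congr_fun h z

theorem Mag.f_dd (hQ : Eqv Γ Q) (n q : ℕ) (z : Bq Γ G (q + 1)) :
    dd (repM Q n) q (M.f n (q + 1) z) = M.f n q (dd M.repB q z) := by
  unfold Mag.f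
  rw [LinearMap.comp_apply, LinearMap.comp_apply, M.fh_bd]
  have h := factor M.repB q (M.fh n q) (fun g w => M.fh_tr hQ n q g w)
    (bd (q + 1) (sg (q + 1) z))
  rw [h, pp_bd, pp_sg]

theorem Mag.f_single (n q : ℕ) (x : Fin q → G) (v : Γ) (r : ℚ) :
    M.f n q (single x (single v r)) = M.Fv n q v (single (Fin.partialProd x) r) := by
  rw [Mag.f, LinearMap.comp_apply, sg_single, Mag.fh, comb_single]

theorem Mag.f_equiv (hQ : Eqv Γ Q) (n q : ℕ) (g : Γ) (z : Bq Γ G q) :
    M.f n q (rB Γ G q g z) = rV Γ V E n q g (M.f n q z) := by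
  have h : (M.f n q) ∘ₗ (rB Γ G q g) = (rV Γ V E n q g) ∘ₗ (M.f n q) := by
    apply TI_ext
    intro x v r
    rw [LinearMap.comp_apply, LinearMap.comp_apply, rB_single, M.f_single, M.f_single, Mag.Fv,
      Mag.Fv, LinearMap.comp_apply, LinearMap.comp_apply, mp_single, mp_single]
    have e1 : (single (M.lab (v * g⁻¹) ∘ Fin.partialProd x) ((LinearMap.id : ℚ →ₗ[ℚ] ℚ) r) :
        T (q + 1) (E →₀ ℤ) ℚ) = mp (q + 1) (gE g) LinearMap.id
          (single (M.lab v ∘ Fin.partialProd x) ((LinearMap.id : ℚ →ₗ[ℚ] ℚ) r)) := by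
      rw [mp_single]
      congr 1
      funext i
      simp only [Function.comp_apply, Mag.lab]
      rw [← gE_mul, mul_inv_rev, inv_inv]
    have e2 : (single ((v * g⁻¹)⁻¹ • v₀) 1 : V →₀ ℤ) = wV g (single (v⁻¹ • v₀) 1) := by
      rw [wV_single, mul_inv_rev, inv_inv, mul_smul]
    rw [e1, e2, Th_wequiv hQ]
    rfl
  exact DFunLike.congr_fun h z

/-- The pairing with the first complex. -/
noncomputable def Mag.pairB (q : ℕ) (ω : Frm (E →₀ ℤ) q) : Bq Γ G q →ₗ[ℚ] ℚ :=
  (comb (q + 1) (fun v => hpair (M.lab v) q ω)) ∘ₗ (sg q)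

theorem Mag.pairM_f (n q : ℕ) (ω : Frm (E →₀ ℤ) q) (z : Bq Γ G q) :
    pairM n q ω (M.f n q z) = (n.descFactorial q : ℚ) * M.pairB q ω z := by
  have h : (pairM n q ω) ∘ₗ (M.f n q) = (n.descFactorial q : ℚ) • M.pairB q ω := by
    apply TI_ext
    intro x v r
    rw [LinearMap.comp_apply, M.f_single, Mag.Fv, LinearMap.comp_apply,
      pairM_Th Q _ (degZ_single _ _), hpair_mp, LinearMap.smul_apply, Mag.pairB,
      LinearMap.comp_apply, sg_single, comb_single]
    rfl
  exact DFunLike.congr_fun h z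

theorem Mag.pairB_dd (q : ℕ) (ω : Frm (E →₀ ℤ) q) (z : Bq Γ G (q + 1)) :
    M.pairB q ω (dd M.repB q z) = 0 := by
  have hinv : ∀ (g : G) (w : T (q + 1) G (Γ →₀ ℚ)),
      comb (q + 1) (fun v => hpair (M.lab v) q ω) (tr M.repB (q + 1) g w) =
        comb (q + 1) (fun v => hpair (M.lab v) q ω) w := by
    intro g w
    have h : (comb (q + 1) (fun v => hpair (M.lab v) q ω)) ∘ₗ (tr M.repB (q + 1) g) =
        comb (q + 1) (fun v => hpair (M.lab v) q ω) := by
      apply TI_ext
      intro x v r
      rw [LinearMap.comp_apply, tr, mp_single, permRep_single, M.σB_apply, comb_single,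
        comb_single, hpair_single, hpair_single]
      congr 2
      funext i
      simp only [Function.comp_apply]
      rw [M.lab_mul, M.lab_mul]
      abel
    exact DFunLike.congr_fun h w
  have h := factor M.repB q (comb (q + 1) (fun v => hpair (M.lab v) q ω)) hinv
    (bd (q + 1) (sg (q + 1) z))
  rw [pp_bd, pp_sg] at h
  rw [Mag.pairB, LinearMap.comp_apply, ← h, comb_bd]
  have h0 : comb (q + 2) (fun v => (hpair (M.lab v) q ω) ∘ₗ (bd (X := G) (M := ℚ) (q + 1))) = 0 := by
    apply TI_ext
    intro x v r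
    rw [comb_single, LinearMap.comp_apply, hpair_bd]
    rfl
  rw [h0]; rfl

end Map

end Pool.Agent.T6.H32.MG
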