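import Pool.Agent.T6.H32.MG.Thm
import Pool.Agent.R615.KU.Fk
import Pool.Agent.R615.KU.Wr2

/-!
Magnus groups of graphs with an action of a group with finite vertex stabilizers are detecting.
-/

set_option autoImplicit false

namespace Pool.Agent.T6.H32.MG

open Finsupp Pool.Agent.Y483 CategoryTheory Pool.Agent.Y483.PW Pool.Agent.R615.KU
  Pool.Agent.Y75.MQ Pool.Agent.Y110.KW Pool.Agent.R793.Mag DirectSum Pointwise

section Supp

open Classical in
/-- The system of supports on the free abelian group on the edges: `e_S` forgets the edges which are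
not in `S`. -/
noncomputable def sE (Γ E : Type) [Group Γ] [MulAction Γ E] : Sys Γ (HH E) E where
  φ := phiE Γ E
  e S :=
    { toFun := fun p => Multiplicative.ofAdd (p.toAdd.filter (fun e => e ∈ S))
      map_one' := by
        change Multiplicative.ofAdd (Finsupp.filter _ (0 : E →₀ ℤ)) = 1
        rw [Finsupp.filter_zero]; rfl
      map_mul' := fun p p' => by
        change Multiplicative.ofAdd (Finsupp.filter _ (p.toAdd + p'.toAdd)) = _
        rw [Finsupp.filter_add]; rfl }
  inter S S' p := by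
    apply congrArg Multiplicative.ofAdd
    ext e
    simp only [Finsupp.filter_apply, Set.mem_inter_iff]
    by_cases h : e ∈ S <;> by_cases h' : e ∈ S' <;>
      simp [h, h']
  equivariant g S p := by
    apply congrArg Multiplicative.ofAdd
    change gE g (Finsupp.filter _ p.toAdd) = Finsupp.filter _ (gE g p.toAdd)
    apply int_ind (fun p => gE g (Finsupp.filter (fun e => e ∈ S) p))
      (fun p => Finsupp.filter (fun e => e ∈ g • S) (gE g p))
    · intro a b
      simp only [Finsupp.filter_add, map_add]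
    · intro a b
      simp only [map_add, Finsupp.filter_add]
    · intro e
      simp only [gE_single]
      have h : g • e ∈ g • S ↔ e ∈ S := Set.smul_mem_smul_set_iff (a := g) (x := e)
      by_cases h' : e ∈ S
      · rw [Finsupp.filter_single_of_pos (p := fun e => e ∈ S) (h := h'),
          Finsupp.filter_single_of_pos (p := fun e => e ∈ g • S) (h := h.mpr h'), gE_single]
      · rw [Finsupp.filter_single_of_neg (p := fun e => e ∈ S) (h := h'),
          Finsupp.filter_single_of_neg (p := fun e => e ∈ g • S) (h := fun h2 => h' (h.mp h2)),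
          map_zero]
  finite p := by
    refine ⟨p.toAdd.support, ?_⟩
    refine congrArg Multiplicative.ofAdd (Finsupp.ext fun x => ?_)
    rw [Finsupp.filter_apply]
    split_ifs with h
    · rfl
    · by_contra hne
      exact h (Finsupp.mem_support_iff.mpr (Ne.symm hne))

variable {Γ E : Type} [Group Γ] [MulAction Γ E]

theorem sE_apply (S : Set E) (p : HH E) (x : E) [Decidable (x ∈ S)] :
    ((sE Γ E).e S p).toAdd x = if x ∈ S then p.toAdd x else 0 := by
  classical
  change (Finsupp.filter (fun e => e ∈ S) p.toAdd) x = _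
  rw [Finsupp.filter_apply]
  congr

/-- An element of `Γ` which fixes the elements of `σ` fixes the chains with support in `σ`. -/
theorem gE_fix {g : Γ} {σ : Set E} (hg : ∀ v ∈ σ, g • v = v) (p : E →₀ ℤ)
    (hp : ∀ x, p x ≠ 0 → x ∈ σ) : gE g p = p := by
  rw [← Finsupp.sum_single p, Finsupp.sum, map_sum]
  apply Finset.sum_congr rfl
  intro x hx
  rw [gE_single, hg x (hp x (Finsupp.mem_support_iff.mp hx))]

end Supp

section DetWE

variable {F : GrpCat.{0} ⥤ ModuleCat.{0} ℚ} {Γ E : Type} [Group Γ] [MulAction Γ E]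

/-- The group of the functions on a finite set. -/
abbrev Zs (σ : Finset E) : Type := ∀ _ : σ, Multiplicative ℤ

theorem det_Zs (σ : Finset E) : Det F (Zs σ) := by
  apply Det.pi
  intro _
  refine (Det.zn (E := F) 1).of_retract
    { toFun := fun n => Multiplicative.ofAdd (fun _ => n.toAdd), map_one' := rfl,
      map_mul' := fun _ _ => rfl }
    { toFun := fun n => Multiplicative.ofAdd (n.toAdd 0), map_one' := rfl,
      map_mul' := fun _ _ => rfl } rfl

theorem left_eq_zero {σ : Finset E} {w : WE Γ E} (hw : w ∈ (sE Γ E).supG σ) (x : E)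
    (hx : w.left.toAdd x ≠ 0) : x ∈ σ := by
  classical
  by_contra h
  apply hx
  have h1 : (sE Γ E).e (σ : Set E) w.left = w.left := hw.1
  rw [← h1, sE_apply, if_neg (by simpa using h)]

/-- The coordinates. -/
def coord (σ : Finset E) : (sE Γ E).supG σ →* Zs σ where
  toFun w x := Multiplicative.ofAdd (w.1.left.toAdd x)
  map_one' := rfl
  map_mul' w w' := by
    funext x
    apply congrArg Multiplicative.ofAdd
    change (w.1.left.toAdd + gE w.1.right w'.1.left.toAdd) x = w.1.left.toAdd x + w'.1.left.toAdd x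
    rw [gE_fix (σ := (σ : Set E)) w.2.2 _ (left_eq_zero w'.2)]
    rfl

theorem coord_surjective (σ : Finset E) : Function.Surjective (coord (Γ := Γ) σ) := by
  classical
  intro y
  let p : E →₀ ℤ := ∑ x : σ, single x.1 (y x).toAdd
  have hp : ∀ x : σ, p x = (y x).toAdd := by
    intro x
    change (∑ x : σ, single x.1 (y x).toAdd) x.1 = _
    rw [Finsupp.finsetSum_apply, Finset.sum_eq_single x]
    · rw [Finsupp.single_eq_same]
    · intro x' _ hx'
      rw [Finsupp.single_eq_of_ne]
      intro h
      exact hx' (Subtype.ext h).symm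
    · intro h
      exact absurd (Finset.mem_univ x) h
  have hp0 : ∀ x, x ∉ σ → p x = 0 := by
    intro x hx
    change (∑ x : σ, single x.1 (y x).toAdd) x = _
    rw [Finsupp.finsetSum_apply]
    apply Finset.sum_eq_zero
    intro x' _
    rw [Finsupp.single_eq_of_ne]
    rintro rfl
    exact hx x'.2
  refine ⟨⟨⟨Multiplicative.ofAdd p, 1⟩, ?_, fun v _ => one_smul _ v⟩, ?_⟩
  · apply congrArg Multiplicative.ofAdd
    ext x
    change ((sE Γ E).e (σ : Set E) (Multiplicative.ofAdd p)).toAdd x = p x
    rw [sE_apply]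
    by_cases h : x ∈ (σ : Set E)
    · rw [if_pos h]; rfl
    · rw [if_neg h, hp0 x h]
  · funext x
    exact congrArg Multiplicative.ofAdd (hp x)

theorem coord_ker {σ : Finset E} (x : E) (hx : x ∈ σ) (h : Finite (MulAction.stabilizer Γ x)) :
    Finite (coord (Γ := Γ) σ).ker := by
  refine Finite.of_injective (fun w : (coord (Γ := Γ) σ).ker =>
    (⟨w.1.1.right, w.1.2.2 x hx⟩ : MulAction.stabilizer Γ x)) ?_
  intro w w' hw
  have h1 : w.1.1.right = w'.1.1.right := congrArg Subtype.val hw
  have h2 : ∀ w : (coord (Γ := Γ) σ).ker, w.1.1.left = 1 := by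
    intro w
    change Multiplicative.ofAdd (w.1.1.left.toAdd) = Multiplicative.ofAdd 0
    apply congrArg Multiplicative.ofAdd
    ext x
    by_contra hne
    have hx := left_eq_zero w.1.2 x hne
    apply hne
    exact congrArg Multiplicative.toAdd (congrFun (MonoidHom.mem_ker.mp w.2) ⟨x, hx⟩)
  apply Subtype.ext
  apply Subtype.ext
  apply SemidirectProduct.ext
  · rw [h2, h2]
  · exact h1

theorem det_supG {σ : Finset E} (hσ : σ.Nonempty)
    (h : ∀ x : E, Finite (MulAction.stabilizer Γ x)) : Det F ((sE Γ E).supG σ) := by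
  obtain ⟨x, hx⟩ := hσ
  have := coord_ker x hx (h x)
  exact (det_Zs σ).of_inj (coord σ) fun j y hy => fk_inj (coord σ) (coord_surjective σ) j y hy

/-- The projection of the group of the elements with empty support. -/
theorem supG_empty (w : (sE Γ E).supG ∅) :
    w.1 = (SemidirectProduct.inr : Γ →* WE Γ E) w.1.right := by
  apply SemidirectProduct.ext
  · change Multiplicative.ofAdd (w.1.left.toAdd) = Multiplicative.ofAdd 0
    apply congrArg Multiplicative.ofAdd
    ext x
    by_contra hne
    exact absurd (left_eq_zero w.2 x hne) (Finset.notMem_empty x)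
  · rfl

theorem hb_empty {B : Type} (d : B → ℕ) (y : HB d ((sE Γ E).supG ∅)) :
    hbMap d (SemidirectProduct.inr : Γ →* WE Γ E) (hbMap d (SemidirectProduct.rightHom.comp
      ((sE Γ E).supG ∅).subtype) y) = hbMap d ((sE Γ E).supG ∅).subtype y := by
  rw [← hbMap_comp]
  congr 2
  apply MonoidHom.ext
  intro w
  exact (supG_empty w).symm

/-- The kernel for the semidirect product comes from `Γ`. -/
theorem ker_WE (hE : HasPT F) (h : ∀ x : E, Finite (MulAction.stabilizer Γ x)) {S : Type} [Group S]
    {I : ℕ → Type} (α : ∀ j : ℕ, I j → (hq j ⟶ timesF S ⋙ F)) (hα : Indep α)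
    (x : HB (dg (I := I)) (WE Γ E)) (hx : tb (dg (I := I)) (fam α) (WE Γ E) x = 0) :
    ∃ y : HB (dg (I := I)) Γ, x = hbMap (dg (I := I)) (SemidirectProduct.inr : Γ →* WE Γ E) y := by
  have h1 := sys_gen (hE.times S) (fun p : Σ j, I j => α p.1 p.2) (sE Γ E)
  unfold GenSub at h1
  have h2 : x ∈ kerFam (fun p : Σ j, I j => α p.1 p.2) (GrpCat.of (sE Γ E).G) := hx
  have h3 : kerFam (fun p : Σ j, I j => α p.1 p.2) (GrpCat.of (sE Γ E).G) ≤
      LinearMap.range (hbMap (dg (I := I)) (SemidirectProduct.inr : Γ →* WE Γ E)) := by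
    rw [h1]
    apply iSup_le
    intro σ
    rcases Finset.eq_empty_or_nonempty σ.1 with h0 | h0
    · rintro _ ⟨y, -, rfl⟩
      obtain ⟨σ, hσ⟩ := σ
      change σ = ∅ at h0
      subst h0
      exact ⟨_, hb_empty (dg (I := I)) y⟩
    · rw [det_supG h0 h S I α hα, Submodule.map_bot]
      exact bot_le
  obtain ⟨y, hy⟩ := h3 h2
  exact ⟨y, hy.symm⟩

end DetWE

section Main

variable {F : GrpCat.{0} ⥤ ModuleCat.{0} ℚ} {Γ V E : Type} [Group Γ] [MulAction Γ V]
  [MulAction Γ E] {Q : Edges V E} {v₀ : V} {G : Type} [Group G]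

/-- Magnus groups of graphs with finite vertex stabilizers are detecting. -/
theorem det_mag (hE : HasPT F) (hQ : Eqv Γ Q) (h : ∀ v : V, Finite (MulAction.stabilizer Γ v))
    (M : Mag Γ Q v₀ G) : Det F G := by
  intro S _ I α hα
  change LinearMap.ker (tb (dg (I := I)) (fam α) G) = ⊥
  have hst : ∀ x : E, Finite (MulAction.stabilizer Γ x) := by
    intro x
    have := h (Q.s x)
    refine Finite.of_injective (fun g : MulAction.stabilizer Γ x =>
      (⟨g.1, by
        change g.1 • Q.s x = Q.s x
        rw [← hQ.s_smul, g.2]⟩ : MulAction.stabilizer Γ (Q.s x))) ?_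
    intro g g' hg
    have h1 : g.1 = g'.1 := Subtype.mk.inj hg
    exact Subtype.ext h1
  rw [eq_bot_iff]
  intro x hx
  have h1 : hbMap (dg (I := I)) M.mu x ∈ LinearMap.ker (tb (dg (I := I)) (fam α) (WE Γ E)) :=
    tb_map (dg (I := I)) (fam α) M.mu hx
  obtain ⟨y, hy⟩ := ker_WE hE hst α hα _ h1
  have h0 : hbMap (dg (I := I)) (1 : G →* Zn 0) x ∈
      LinearMap.ker (tb (dg (I := I)) (fam α) (Zn 0)) := tb_map _ _ _ hx
  rw [ker_Zn_of_li α hα 0, Submodule.mem_bot] at h0
  rw [Submodule.mem_bot]
  apply DFunLike.ext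
  intro b
  change x b = 0
  have hx1 : hqMap (1 : G →* Zn 0) (dg (I := I) b) (x b) = 0 := by
    have h2 := congrArg (fun u : HB (dg (I := I)) (Zn 0) => u b) h0
    exact (hbMap_apply (dg (I := I)) (1 : G →* Zn 0) x b).symm.trans h2
  have hx2 : hqMap M.mu (dg (I := I) b) (x b) =
      hqMap (SemidirectProduct.inr : Γ →* WE Γ E) (dg (I := I) b) (y b) := by
    have h3 := congrArg (fun u : HB (dg (I := I)) (WE Γ E) => u b) hy
    have h4 := hbMap_apply (dg (I := I)) (SemidirectProduct.inr : Γ →* WE Γ E) y b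
    have h5 := hbMap_apply (dg (I := I)) M.mu x b
    exact h5.symm.trans (h3.trans h4)
  obtain ⟨j, i⟩ := b
  change hqMap (1 : G →* Zn 0) j (x ⟨j, i⟩) = 0 at hx1
  change hqMap M.mu j (x ⟨j, i⟩) =
    hqMap (SemidirectProduct.inr : Γ →* WE Γ E) j (y ⟨j, i⟩) at hx2
  generalize x ⟨j, i⟩ = xb at *
  generalize y ⟨j, i⟩ = yb at *
  cases j with
  | zero => exact hq_zero_injective (1 : G →* Zn 0) _ hx1
  | succ j =>
    obtain ⟨z, hz⟩ := exists_rpr (Rep.trivial ℚ G ℚ) (j + 1) xb
    obtain ⟨w, hw⟩ := exists_rpr (Rep.trivial ℚ Γ ℚ) (j + 1) yb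
    have h2 : hqMap M.mu (j + 1) xb -
        hqMap (SemidirectProduct.inr : Γ →* WE Γ E) (j + 1) yb = 0 := by
      rw [hx2, sub_self]
    have h3 := (hz.hq M.mu).sub (hw.hq (SemidirectProduct.inr : Γ →* WE Γ E))
    rw [h3.eq_zero_iff] at h2
    have h4 := M.theoremH (wts Γ V h) hQ j z ((cyc_succ _ _ _).mp hz.cyc) w h2
    exact hz.eq_zero_iff.mpr h4

end Main

end Pool.Agent.T6.H32.MG
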