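import Pool.Agent.T6.H32.MG.Det

/-!
The quotient of a tree with an action of a group by a normal subgroup which acts freely: the Magnus
group of the quotient graph.
-/

set_option autoImplicit false

namespace Pool.Agent.T6.H32.MG

open Finsupp Pool.Agent.Y483

section Quo

variable {G : Type} [Group G] (R : Subgroup G) [R.Normal]

/-- The set of the orbits of `R`. -/
def Qo (R : Subgroup G) (V : Type) [MulAction G V] : Type := Quotient (MulAction.orbitRel R V)

variable {V : Type} [MulAction G V]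

/-- The orbit of a point. -/
def qmk (v : V) : Qo R V := Quotient.mk (MulAction.orbitRel R V) v

omit [R.Normal] in
theorem qmk_surj (x : Qo R V) : ∃ v, qmk R v = x := Quotient.exists_rep x

omit [R.Normal] in
theorem qmk_eq {v w : V} : qmk R v = qmk R w ↔ ∃ r ∈ R, r • w = v := by
  constructor
  · intro h
    obtain ⟨r, hr⟩ := Quotient.exact h
    exact ⟨r.1, r.2, hr⟩
  · rintro ⟨r, hr, h⟩
    exact Quotient.sound (s := MulAction.orbitRel R V) ⟨⟨r, hr⟩, h⟩

instance : SMul (G ⧸ R) (Qo R V) where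
  smul x y := Quotient.liftOn₂ x y (fun g v => qmk R (g • v)) (by
    intro g v g' v' h h'
    have h1 : g⁻¹ * g' ∈ R := QuotientGroup.leftRel_apply.mp h
    obtain ⟨r, hr⟩ := h'
    have h2 : r.1 • v' = v := hr
    rw [qmk_eq]
    refine ⟨g * (r.1 * (g⁻¹ * g')⁻¹) * g⁻¹, Subgroup.Normal.conj_mem inferInstance _
      (R.mul_mem r.2 (R.inv_mem h1)) g, ?_⟩
    rw [← h2, ← mul_smul, ← mul_smul]
    congr 1
    group)

theorem mk_smul (g : G) (v : V) : (QuotientGroup.mk g : G ⧸ R) • qmk R v = qmk R (g • v) := rfl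

instance : MulAction (G ⧸ R) (Qo R V) where
  one_smul y := by
    obtain ⟨v, rfl⟩ := qmk_surj R y
    change (QuotientGroup.mk (1 : G) : G ⧸ R) • qmk R v = _
    rw [mk_smul, one_smul]
  mul_smul a b y := by
    obtain ⟨v, rfl⟩ := qmk_surj R y
    obtain ⟨g, rfl⟩ := QuotientGroup.mk_surjective a
    obtain ⟨h, rfl⟩ := QuotientGroup.mk_surjective b
    rw [mk_smul, mk_smul, ← QuotientGroup.mk_mul, mk_smul, mul_smul]

theorem stab_quo (v : V) (h : Finite (MulAction.stabilizer G v)) :
    Finite (MulAction.stabilizer (G ⧸ R) (qmk R v)) := by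
  refine Finite.of_surjective (fun g : MulAction.stabilizer G v =>
    (⟨QuotientGroup.mk g.1, by
      change (QuotientGroup.mk g.1 : G ⧸ R) • qmk R v = qmk R v
      rw [mk_smul, g.2]⟩ : MulAction.stabilizer (G ⧸ R) (qmk R v))) ?_
  rintro ⟨x, hx⟩
  obtain ⟨g, rfl⟩ := QuotientGroup.mk_surjective x
  have h1 : qmk R (g • v) = qmk R v := hx
  obtain ⟨r, hr, h2⟩ := (qmk_eq R).mp h1
  refine ⟨⟨r⁻¹ * g, ?_⟩, ?_⟩
  · change (r⁻¹ * g) • v = v
    rw [mul_smul, ← h2, inv_smul_smul]
  · apply Subtype.ext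
    change (QuotientGroup.mk (r⁻¹ * g) : G ⧸ R) = QuotientGroup.mk g
    rw [QuotientGroup.eq]
    have h3 : (r⁻¹ * g)⁻¹ * g = g⁻¹ * r * g⁻¹⁻¹ := by group
    rw [h3]
    exact Subgroup.Normal.conj_mem inferInstance r hr g⁻¹

variable {E : Type} [MulAction G E] (Q : Edges V E)

/-- The quotient graph. -/
def quoQ (hQ : Eqv G Q) : Edges (Qo R V) (Qo R E) where
  s := Quotient.lift (fun e => qmk R (Q.s e)) (by
    rintro e e' ⟨r, hr⟩
    rw [qmk_eq]
    refine ⟨r.1, r.2, ?_⟩
    rw [← hQ.s_smul]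
    exact congrArg Q.s hr)
  t := Quotient.lift (fun e => qmk R (Q.t e)) (by
    rintro e e' ⟨r, hr⟩
    rw [qmk_eq]
    refine ⟨r.1, r.2, ?_⟩
    rw [← hQ.t_smul]
    exact congrArg Q.t hr)

variable {Q}

theorem quo_s (hQ : Eqv G Q) (e : E) : (quoQ R Q hQ).s (qmk R e) = qmk R (Q.s e) := rfl

theorem quo_t (hQ : Eqv G Q) (e : E) : (quoQ R Q hQ).t (qmk R e) = qmk R (Q.t e) := rfl

theorem quo_eqv (hQ : Eqv G Q) : Eqv (G ⧸ R) (quoQ R Q hQ) where
  s_smul a y := by
    obtain ⟨e, rfl⟩ := qmk_surj R y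
    obtain ⟨g, rfl⟩ := QuotientGroup.mk_surjective a
    rw [mk_smul, quo_s, quo_s, mk_smul, hQ.s_smul]
  t_smul a y := by
    obtain ⟨e, rfl⟩ := qmk_surj R y
    obtain ⟨g, rfl⟩ := QuotientGroup.mk_surjective a
    rw [mk_smul, quo_t, quo_t, mk_smul, hQ.t_smul]

/-- The projection of chains. -/
noncomputable def prC (V : Type) [MulAction G V] : (V →₀ ℤ) →ₗ[ℤ] (Qo R V →₀ ℤ) :=
  Finsupp.lmapDomain ℤ ℤ (qmk R)

theorem prC_single (v : V) (n : ℤ) : prC R V (single v n) = single (qmk R v) n := by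
  simp [prC]

theorem del_prC (hQ : Eqv G Q) (m : E →₀ ℤ) :
    (quoQ R Q hQ).del (prC R E m) = prC R V (Q.del m) := by
  apply int_ind (fun m => (quoQ R Q hQ).del (prC R E m)) (fun m => prC R V (Q.del m))
    (fun a b => by simp only [map_add]) (fun a b => by simp only [map_add])
  intro e
  simp only [prC_single, Edges.del_single, map_sub, quo_s, quo_t]

theorem prC_gE (g : G) (m : E →₀ ℤ) :
    prC R E (gE g m) = gE (QuotientGroup.mk g : G ⧸ R) (prC R E m) := by
  apply int_ind (fun m => prC R E (gE g m))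
    (fun m => gE (QuotientGroup.mk g : G ⧸ R) (prC R E m))
    (fun a b => by simp only [map_add]) (fun a b => by simp only [map_add])
  intro e
  simp only [prC_single, gE_single, mk_smul]

end Quo

section Tree

/-- A graph with integral homology `H_0 = ℤ` and `H_1 = 0`, that is, a tree. -/
structure IsTr {V E : Type} (Q : Edges V E) : Prop where
  conn : ∀ v w : V, ∃ m : E →₀ ℤ, Q.del m = single w 1 - single v 1
  acyc : ∀ m m' : E →₀ ℤ, Q.del m = Q.del m' → m = m'

variable {G : Type} [Group G] (R : Subgroup G) [R.Normal] {V E : Type} [MulAction G V]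
  [MulAction G E] {Q : Edges V E} (hT : IsTr Q) (hQ : Eqv G Q) (v₀ : V)

/-- The path from `v₀` to `g v₀`. -/
noncomputable def pth (hT : IsTr Q) (v₀ : V) (g : G) : E →₀ ℤ := (hT.conn v₀ (g • v₀)).choose

theorem del_pth (g : G) : Q.del (pth hT v₀ g) = single (g • v₀) 1 - single v₀ 1 :=
  (hT.conn v₀ (g • v₀)).choose_spec

include hQ in
theorem pth_mul (g h : G) : pth hT v₀ (g * h) = pth hT v₀ g + gE g (pth hT v₀ h) := by
  apply hT.acyc
  rw [map_add, del_wE hQ, del_pth, del_pth, del_pth, map_sub, wV_single, wV_single, mul_smul]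
  abel

/-- The crossed homomorphism on `G`. -/
noncomputable def cT (g : G) : Qo R E →₀ ℤ := prC R E (pth hT v₀ g)

include hQ in
theorem cT_mul (g h : G) :
    cT R hT v₀ (g * h) = cT R hT v₀ g + gE (QuotientGroup.mk g : G ⧸ R) (cT R hT v₀ h) := by
  unfold cT
  rw [pth_mul hT hQ, map_add, prC_gE]

include hQ in
theorem cT_mul_left {r : G} (hr : r ∈ R) (h : G) :
    cT R hT v₀ (r * h) = cT R hT v₀ r + cT R hT v₀ h := by
  rw [cT_mul R hT hQ, (QuotientGroup.eq_one_iff r).mpr hr, gE_one]

/-- The restriction to `R`. -/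
noncomputable def cR (hQ : Eqv G Q) : R →* Multiplicative (Qo R E →₀ ℤ) where
  toFun r := Multiplicative.ofAdd (cT R hT v₀ r.1)
  map_one' := by
    apply congrArg Multiplicative.ofAdd
    have h := cT_mul_left R hT hQ v₀ R.one_mem 1
    rw [mul_one] at h
    exact left_eq_add.mp h
  map_mul' r r' := congrArg Multiplicative.ofAdd (cT_mul_left R hT hQ v₀ r.2 r'.1)

include hQ in
theorem cT_comm {k : G} (hk : k ∈ ⁅R, R⁆) : cT R hT v₀ k = 0 := by
  have h1 : ⁅R, R⁆ ≤ ((cR R hT v₀ hQ).ker).map R.subtype := by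
    rw [Subgroup.commutator_le]
    intro a ha b hb
    refine ⟨(⟨a, ha⟩ : R) * ⟨b, hb⟩ * (⟨a, ha⟩ : R)⁻¹ * (⟨b, hb⟩ : R)⁻¹, ?_, rfl⟩
    change _ ∈ (cR R hT v₀ hQ).ker
    rw [MonoidHom.mem_ker, map_mul, map_mul, map_mul, map_inv, map_inv,
      mul_comm (cR R hT v₀ hQ ⟨a, ha⟩), mul_inv_cancel_right, mul_inv_cancel]
  obtain ⟨r, hr, rfl⟩ := h1 hk
  exact congrArg Multiplicative.toAdd (MonoidHom.mem_ker.mp hr)

/-- The representative of the `R`-orbit. -/
noncomputable def ror (v : V) : V := (qmk_surj R (qmk R v)).choose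

theorem qmk_ror (v : V) : qmk R (ror R v) = qmk R v := (qmk_surj R (qmk R v)).choose_spec

theorem ror_smul {r : G} (hr : r ∈ R) (v : V) : ror R (r • v) = ror R v := by
  have h : qmk R (r • v) = qmk R v := (qmk_eq R).mpr ⟨r, hr, rfl⟩
  unfold ror
  congr 1
  funext x
  rw [h]

theorem exists_ror (v : V) : ∃ r : R, r.1 • ror R v = v := by
  obtain ⟨r, hr, h⟩ := (qmk_eq R).mp (qmk_ror R v).symm
  exact ⟨⟨r, hr⟩, h⟩

/-- The element which moves the representative to `v`. -/
noncomputable def rr (v : V) : R := (exists_ror R v).choose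

theorem rr_smul (v : V) : (rr R v).1 • ror R v = v := (exists_ror R v).choose_spec

/-- The abelianization of `R` modulo torsion. -/
abbrev AbT (R : Subgroup G) : Type := Abelianization R ⧸ CommGroup.torsion (Abelianization R)

/-- The class modulo torsion. -/
def cls : R →* AbT R := (QuotientGroup.mk' _).comp Abelianization.of

omit [R.Normal] in
theorem cls_fin (r : R) (h : IsOfFinOrder r) : cls R r = 1 := by
  have h1 : Abelianization.of r ∈ CommGroup.torsion (Abelianization R) :=
    (Abelianization.of (G := R)).isOfFinOrder h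
  exact (QuotientGroup.eq_one_iff _).mpr h1

omit [R.Normal] in
theorem cls_one (r : R) (h : cls R r = 1) : ∃ n : ℕ, n ≠ 0 ∧ (Abelianization.of r) ^ n = 1 := by
  have h1 : Abelianization.of r ∈ CommGroup.torsion (Abelianization R) :=
    (QuotientGroup.eq_one_iff _).mp h
  have h2 : IsOfFinOrder (Abelianization.of r) := h1
  obtain ⟨n, hn, h3⟩ := isOfFinOrder_iff_pow_eq_one.mp h2
  exact ⟨n, hn.ne', h3⟩

/-- The elements of `R` which fix a vertex have finite order. -/
def Fin' (R : Subgroup G) (V : Type) [MulAction G V] : Prop :=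
  ∀ r : R, ∀ v : V, r.1 • v = v → IsOfFinOrder r

theorem cls_rr (hf : Fin' R V) (r : R) (v : V) : cls R (rr R (r.1 • v)) = cls R (r * rr R v) := by
  have h1 := rr_smul R (r.1 • v)
  rw [ror_smul R r.2] at h1
  have h2 : (r.1 * (rr R v).1) • ror R v = r.1 • v := by rw [mul_smul, rr_smul]
  have h3 : ((r * rr R v)⁻¹ * rr R (r.1 • v)).1 • ror R v = ror R v := by
    change ((r.1 * (rr R v).1)⁻¹ * (rr R (r.1 • v)).1) • ror R v = ror R v
    rw [mul_smul, h1, ← h2, inv_smul_smul]
  have h4 := cls_fin R _ (hf _ _ h3)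
  rw [map_mul, map_inv] at h4
  exact (inv_mul_eq_one.mp h4).symm

/-- The labels. -/
noncomputable def lam (v : V) : Additive (AbT R) := Additive.ofMul (cls R (rr R v))

theorem lam_smul (hf : Fin' R V) (r : R) (v : V) :
    lam R (r.1 • v) = Additive.ofMul (cls R r) + lam R v := by
  unfold lam
  rw [cls_rr R hf, map_mul]
  rfl

/-- The extension of the labels to `0`-chains. -/
noncomputable def Lm (V : Type) [MulAction G V] : (V →₀ ℤ) →ₗ[ℤ] Additive (AbT R) :=
  Finsupp.linearCombination ℤ (lam R)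

theorem Lm_single (v : V) : Lm R V (single v 1) = lam R v := by
  simp [Lm]

include hQ in
/-- The labels of the boundaries depend only on the images in the quotient graph. -/
theorem Lm_del (hf : Fin' R V) :
    ∃ L : (Qo R E →₀ ℤ) →ₗ[ℤ] Additive (AbT R),
      ∀ m : E →₀ ℤ, Lm R V (Q.del m) = L (prC R E m) := by
  let l : Qo R E → Additive (AbT R) :=
    Quotient.lift (fun e => lam R (Q.t e) - lam R (Q.s e)) (by
      rintro e e' ⟨r, hr⟩
      have h : r.1 • e' = e := hr
      rw [← h, hQ.s_smul, hQ.t_smul, lam_smul R hf, lam_smul R hf]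
      abel)
  refine ⟨Finsupp.linearCombination ℤ l, fun m => ?_⟩
  apply int_ind (fun m => Lm R V (Q.del m))
    (fun m => Finsupp.linearCombination ℤ l (prC R E m))
    (fun a b => by simp only [map_add]) (fun a b => by simp only [map_add])
  intro e
  simp only [prC_single, Edges.del_single, map_sub, Lm_single, Finsupp.linearCombination_single,
    one_smul]
  rfl

include hQ in
theorem cT_tor (hf : Fin' R V) (r : R) (h : cT R hT v₀ r.1 = 0) :
    ∃ n : ℕ, n ≠ 0 ∧ (Abelianization.of r) ^ n = 1 := by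
  obtain ⟨L, hL⟩ := Lm_del R hQ hf
  have h1 := hL (pth hT v₀ r.1)
  have h2 : prC R E (pth hT v₀ r.1) = 0 := h
  have h5 := lam_smul R hf r v₀
  rw [h2, map_zero, del_pth, map_sub, Lm_single, Lm_single, h5, add_sub_cancel_right] at h1
  exact cls_one R r h1

include hQ in
/-- The image of a path between two points of an `R`-orbit. -/
theorem pr_path (r : R) (v : V) (q : E →₀ ℤ) (hq : Q.del q = single (r.1 • v) 1 - single v 1) :
    prC R E q = cT R hT v₀ r.1 := by
  obtain ⟨w, hw⟩ := hT.conn v₀ v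
  have h : q = pth hT v₀ r.1 + gE r.1 w - w := by
    apply hT.acyc
    rw [hq, map_sub, map_add, del_pth, del_wE hQ, hw, map_sub, wV_single, wV_single]
    abel
  rw [h, map_sub, map_add, prC_gE, (QuotientGroup.eq_one_iff r.1).mpr r.2, gE_one]
  unfold cT
  abel

include hQ in
/-- The cycles of the quotient graph come from `R`. -/
theorem cT_surj (m' : Qo R E →₀ ℤ) (hm : (quoQ R Q hQ).del m' = 0) :
    ∃ r : R, cT R hT v₀ r.1 = m' := by
  -- a lift of the cycle
  obtain ⟨m, rfl⟩ : ∃ m, prC R E m = m' := by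
    choose sec hsec using qmk_surj R (V := E)
    refine ⟨Finsupp.lmapDomain ℤ ℤ sec m', ?_⟩
    apply int_ind (fun m' => prC R E (Finsupp.lmapDomain ℤ ℤ sec m')) (fun m' => m')
      (fun a b => by simp only [map_add]) (fun a b => rfl)
    intro e
    have e1 : Finsupp.lmapDomain ℤ ℤ sec (single e (1 : ℤ)) = single (sec e) 1 := by simp
    simp only [e1, prC_single, hsec]
  rw [del_prC] at hm
  -- the paths
  choose q hq using fun v : V => hT.conn (ror R v) v
  have h1 : ∀ b : V →₀ ℤ, Q.del (Finsupp.linearCombination ℤ q b) =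
      b - Finsupp.linearCombination ℤ (fun v => single (ror R v) (1 : ℤ)) b := by
    intro b
    apply int_ind (fun b => Q.del (Finsupp.linearCombination ℤ q b))
      (fun b => b - Finsupp.linearCombination ℤ (fun v => single (ror R v) (1 : ℤ)) b)
    · intro a b; simp only [map_add]
    · intro a b; simp only [map_add]; abel
    · intro v
      simp only [Finsupp.linearCombination_single, one_smul, hq]
  have h2 : ∀ b : V →₀ ℤ, prC R V b = 0 →
      Finsupp.linearCombination ℤ (fun v => single (ror R v) (1 : ℤ)) b = 0 := by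
    intro b hb
    choose sec hsec using qmk_surj R (V := V)
    let F : Qo R V → V := fun x => (qmk_surj R x).choose
    have e : Finsupp.linearCombination ℤ (fun v => single (ror R v) (1 : ℤ)) b =
        Finsupp.lmapDomain ℤ ℤ F (prC R V b) := by
      apply int_ind (fun b => Finsupp.linearCombination ℤ (fun v => single (ror R v) (1 : ℤ)) b)
        (fun b => Finsupp.lmapDomain ℤ ℤ F (prC R V b))
        (fun a b => by simp only [map_add]) (fun a b => by simp only [map_add])
      intro v
      have e1 : Finsupp.lmapDomain ℤ ℤ F (single (qmk R v) (1 : ℤ)) = single (F (qmk R v)) 1 := by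
        simp
      simp only [Finsupp.linearCombination_single, one_smul, prC_single, e1]
      rfl
    rw [e, hb, map_zero]
  have h3 : m = Finsupp.linearCombination ℤ q (Q.del m) := by
    apply hT.acyc
    rw [h1, h2 _ hm, sub_zero]
  have h4 : ∀ b : V →₀ ℤ, ∃ r : R, cT R hT v₀ r.1 =
      prC R E (Finsupp.linearCombination ℤ q b) := by
    intro b
    induction b using Finsupp.induction_linear with
    | zero =>
      refine ⟨1, ?_⟩
      rw [map_zero, map_zero]
      exact congrArg Multiplicative.toAdd (map_one (cR R hT v₀ hQ))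
    | add a b ha hb =>
      obtain ⟨r, hr⟩ := ha
      obtain ⟨r', hr'⟩ := hb
      refine ⟨r * r', ?_⟩
      rw [map_add, map_add, ← hr, ← hr']
      exact cT_mul_left R hT hQ v₀ r.2 r'.1
    | single v n =>
      refine ⟨rr R v ^ n, ?_⟩
      have e1 : cT R hT v₀ ((rr R v ^ n : R) : G) = n • cT R hT v₀ (rr R v).1 := by
        have e2 := map_zpow (cR R hT v₀ hQ) (rr R v) n
        exact congrArg Multiplicative.toAdd e2
      have e3 : prC R E (q v) = cT R hT v₀ (rr R v).1 :=
        pr_path R hT hQ v₀ (rr R v) (ror R v) (q v) (by rw [hq, rr_smul])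
      rw [e1, ← e3, Finsupp.linearCombination_single, map_smul]
  obtain ⟨r, hr⟩ := h4 (Q.del m)
  exact ⟨r, by rw [hr, ← h3]⟩

end Tree

end Pool.Agent.T6.H32.MG
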