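import Pool.Agent.T6.H32.MG.Quo
import Pool.Agent.R942.NV.Tor

/-!
The groups `G / [R, R]`, for a group `G` acting on a tree with finite vertex stabilizers and a normal
subgroup `R`.
-/

set_option autoImplicit false

namespace Pool.Agent.T6.H32.MG

open Finsupp Pool.Agent.Y483 CategoryTheory Pool.Agent.Y483.PW Pool.Agent.R615.KU
  Pool.Agent.R942.NV

section Tors

variable {K L : Type} [CommGroup K] [CommGroup L] (κ : K →* L) (hs : Function.Surjective κ)
  (htor : ∀ a ∈ κ.ker, ∃ n : ℕ, n ≠ 0 ∧ a ^ n = 1)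

include hs htor in
/-- A surjective homomorphism of abelian groups with a torsion kernel. -/
theorem tors_both :
    (∀ (m : ℕ) (x : T (m + 1) K ℚ), dd (trivR K ℚ) m x = 0 →
      mp (m + 1) κ LinearMap.id x ∈ LinearMap.range (dd (trivR L ℚ) (m + 1)) →
        x ∈ LinearMap.range (dd (trivR K ℚ) (m + 1))) ∧
    (∀ (m : ℕ) (x : T (m + 1) L ℚ), dd (trivR L ℚ) m x = 0 →
      ∃ y : T (m + 1) K ℚ, dd (trivR K ℚ) m y = 0 ∧
        x - mp (m + 1) κ LinearMap.id y ∈ LinearMap.range (dd (trivR L ℚ) (m + 1))) := by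
  apply over_both (Γ := L) κ (MonoidHom.id _) hs (fun x => ⟨x, rfl⟩) κ (fun _ => rfl)
    κ.ker.subtype (1 : Unit →* L) κ.ker.subtype_injective (fun _ _ _ => rfl)
    (fun k => k.2) (fun _ => rfl)
    (fun g hg => ⟨⟨g, hg⟩, rfl⟩) (fun g hg => ⟨(), hg.symm⟩)
    (1 : κ.ker →* Unit) (fun k => k.2)
  · intro q y hy
    refine ⟨mp q (1 : Unit →* κ.ker) LinearMap.id y, ?_, ?_⟩
    · exact cyc_mp (ρ := trivR Unit ℚ) (τ := trivR κ.ker ℚ) (1 : Unit →* κ.ker) LinearMap.id
        (fun _ _ => rfl) q y hy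
    · rw [mp_mp]
      have e : ((1 : κ.ker →* Unit) : κ.ker → Unit) ∘ (1 : Unit →* κ.ker) = id := rfl
      rw [e]
      have e2 : mp q (id : Unit → Unit) ((LinearMap.id : ℚ →ₗ[ℚ] ℚ) ∘ₗ LinearMap.id) y = y :=
        mp_id _ _
      rw [e2, sub_self]
      exact Submodule.zero_mem _
  · intro q y hy h
    cases q with
    | zero =>
      have e1 : dd (trivR Unit ℚ) 0 = 0 := dd_zero_triv Unit
      rw [e1] at h
      obtain ⟨w, hw⟩ := h
      rw [LinearMap.zero_apply, mp_zero] at hw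
      have e2 : y default = 0 := by
        have h5 := hw.symm
        rwa [Finsupp.single_eq_zero] at h5
      have e3 : y = 0 := by
        rw [Finsupp.unique_single y, e2, Finsupp.single_zero]
      rw [e3]
      exact Submodule.zero_mem _
    | succ q =>
      apply tor_acyc (fun a => ?_) q y ((cyc_succ _ _ _).mp hy)
      obtain ⟨n, hn, ha⟩ := htor a a.2
      exact ⟨n, hn, Subtype.ext ha⟩

include hs htor in
theorem tors_sur (q : ℕ) (y : T q L ℚ) (hy : Cyc (trivR L ℚ) q y) : ∃ y' : T q K ℚ,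
    Cyc (trivR K ℚ) q y' ∧ y - mp q κ LinearMap.id y' ∈
      LinearMap.range (dd (trivR L ℚ) q) := by
  cases q with
  | zero =>
    refine ⟨single default (y default), Cyc.zero _ _, ?_⟩
    have e : y - mp 0 κ LinearMap.id (single default (y default)) = 0 := by
      rw [mp_zero, sub_eq_zero, Finsupp.single_eq_same]
      exact Finsupp.unique_single y
    rw [e]
    exact Submodule.zero_mem _
  | succ q =>
    obtain ⟨y', hy', h⟩ := (tors_both κ hs htor).2 q y ((cyc_succ _ _ _).mp hy)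
    exact ⟨y', (cyc_succ _ _ _).mpr hy', h⟩

include hs htor in
theorem tors_inj (q : ℕ) (y : T q K ℚ) (hy : Cyc (trivR K ℚ) q y)
    (h : mp q κ LinearMap.id y ∈ LinearMap.range (dd (trivR L ℚ) q)) :
    y ∈ LinearMap.range (dd (trivR K ℚ) q) := by
  cases q with
  | zero =>
    rw [dd_zero_triv] at h
    obtain ⟨w, hw⟩ := h
    rw [LinearMap.zero_apply, mp_zero] at hw
    have e2 : y default = 0 := by
      have h5 := hw.symm
      rwa [Finsupp.single_eq_zero] at h5
    have e3 : y = 0 := by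
      rw [Finsupp.unique_single y, e2, Finsupp.single_zero]
    rw [e3]
    exact Submodule.zero_mem _
  | succ q => exact (tors_both κ hs htor).1 q y ((cyc_succ _ _ _).mp hy) h

end Tors

section MS

variable {Γ V E : Type} [Group Γ] [MulAction Γ V] [MulAction Γ E] {Q : Edges V E}

/-- The Magnus group of a graph. -/
noncomputable def mSub (hQ : Eqv Γ Q) (v₀ : V) : Subgroup (WE Γ E) where
  carrier := {w | Q.del (lw w) = single (w.right • v₀) 1 - single v₀ 1}
  mul_mem' := by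
    intro w x hw hx
    change Q.del (lw w) = single (w.right • v₀) 1 - single v₀ 1 at hw
    change Q.del (lw x) = single (x.right • v₀) 1 - single v₀ 1 at hx
    change Q.del (lw (w * x)) = single ((w.right * x.right) • v₀) 1 - single v₀ 1
    rw [lw_mul, map_add, del_wE hQ, hw, hx, map_sub, wV_single, wV_single, mul_smul]
    abel
  one_mem' := by
    change Q.del 0 = single ((1 : Γ) • v₀) 1 - single v₀ 1
    rw [map_zero, one_smul, sub_self]
  inv_mem' := by
    intro w hw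
    change Q.del (lw w) = single (w.right • v₀) 1 - single v₀ 1 at hw
    change Q.del (gE w.right⁻¹ (-(lw w))) = single (w.right⁻¹ • v₀) 1 - single v₀ 1
    rw [del_wE hQ, map_neg, hw, map_neg, map_sub, wV_single, wV_single, inv_smul_smul, neg_sub]

/-- The Magnus structure. -/
noncomputable def mMag (hQ : Eqv Γ Q) (v₀ : V) (hgen : ∀ v : V, ∃ m, Q.del m = single v 1 - single v₀ 1) :
    Mag Γ Q v₀ (mSub hQ v₀) where
  γ := SemidirectProduct.rightHom.comp (mSub hQ v₀).subtype
  c w := lw w.1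
  mul g h := lw_mul g.1 h.1
  del g := g.2
  inj g h h1 h2 := Subtype.ext (SemidirectProduct.ext h2 h1)
  sur m v hm := ⟨⟨⟨Multiplicative.ofAdd m, v⟩, hm⟩, rfl, rfl⟩
  gen := hgen

end MS

section Tree

variable {G : Type} [Group G] (R : Subgroup G) [R.Normal] {V E : Type} [MulAction G V]
  [MulAction G E] {Q : Edges V E} (hT : IsTr Q) (hQ : Eqv G Q) (v₀ : V)

omit [R.Normal] in
theorem comm_le' : ⁅R, R⁆ ≤ R := by
  rw [Subgroup.commutator_le]
  intro a ha b hb
  exact R.mul_mem (R.mul_mem (R.mul_mem ha hb) (R.inv_mem ha)) (R.inv_mem hb)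

/-- The projection. -/
noncomputable def gT : G ⧸ ⁅R, R⁆ →* G ⧸ R :=
  QuotientGroup.map ⁅R, R⁆ R (MonoidHom.id G) (comm_le' R)

theorem gT_mk (g : G) : gT R (QuotientGroup.mk g) = QuotientGroup.mk g := rfl

/-- The crossed homomorphism. -/
noncomputable def cQ (hQ : Eqv G Q) : G ⧸ ⁅R, R⁆ → (Qo R E →₀ ℤ) :=
  Quotient.lift (cT R hT v₀) (by
    intro g g' h
    have h1 : g⁻¹ * g' ∈ ⁅R, R⁆ := QuotientGroup.leftRel_apply.mp h
    have h2 := cT_mul R hT hQ v₀ g (g⁻¹ * g')
    rw [mul_inv_cancel_left, cT_comm R hT hQ v₀ h1, map_zero, add_zero] at h2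
    exact h2.symm)

theorem cQ_mk (g : G) : cQ R hT v₀ hQ (QuotientGroup.mk g) = cT R hT v₀ g := rfl

theorem cQ_mul (x y : G ⧸ ⁅R, R⁆) :
    cQ R hT v₀ hQ (x * y) = cQ R hT v₀ hQ x + gE (gT R x) (cQ R hT v₀ hQ y) := by
  obtain ⟨g, rfl⟩ := QuotientGroup.mk_surjective x
  obtain ⟨h, rfl⟩ := QuotientGroup.mk_surjective y
  rw [← QuotientGroup.mk_mul, cQ_mk, cQ_mk, cQ_mk, gT_mk, cT_mul R hT hQ]

theorem cQ_del (x : G ⧸ ⁅R, R⁆) : (quoQ R Q hQ).del (cQ R hT v₀ hQ x) =
    single (gT R x • qmk R v₀) 1 - single (qmk R v₀) 1 := by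
  obtain ⟨g, rfl⟩ := QuotientGroup.mk_surjective x
  rw [cQ_mk, gT_mk, cT, del_prC, del_pth, map_sub, prC_single, prC_single, mk_smul]

/-- The homomorphism to the Magnus group of the quotient graph. -/
noncomputable def fT : G ⧸ ⁅R, R⁆ →* mSub (quo_eqv R hQ) (qmk R v₀) where
  toFun x := ⟨⟨Multiplicative.ofAdd (cQ R hT v₀ hQ x), gT R x⟩, cQ_del R hT hQ v₀ x⟩
  map_one' := by
    apply Subtype.ext
    apply SemidirectProduct.ext
    · apply congrArg Multiplicative.ofAdd
      have h := cQ_mul R hT hQ v₀ 1 1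
      rw [mul_one, map_one, gE_one] at h
      exact left_eq_add.mp h
    · exact map_one (gT R)
  map_mul' x y := by
    apply Subtype.ext
    apply SemidirectProduct.ext
    · exact congrArg Multiplicative.ofAdd (cQ_mul R hT hQ v₀ x y)
    · exact map_mul (gT R) x y

include hT in
theorem gen_quo (x : Qo R V) :
    ∃ m, (quoQ R Q hQ).del m = single x 1 - single (qmk R v₀) 1 := by
  obtain ⟨v, rfl⟩ := qmk_surj R x
  obtain ⟨m, hm⟩ := hT.conn v₀ v
  exact ⟨prC R E m, by rw [del_prC, hm, map_sub, prC_single, prC_single]⟩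

/-- The inclusion of the abelianization of `R`. -/
noncomputable def iR : Abelianization R →* G ⧸ ⁅R, R⁆ :=
  QuotientGroup.lift (commutator R) ((QuotientGroup.mk' ⁅R, R⁆).comp R.subtype) (fun r hr => by
    have h1 : (r : G) ∈ ⁅R, R⁆ := by
      rw [← Subgroup.map_subtype_commutator]
      exact Subgroup.mem_map_of_mem R.subtype hr
    exact (QuotientGroup.eq_one_iff _).mpr h1)

theorem iR_of (r : R) : iR R (Abelianization.of r) = QuotientGroup.mk (r : G) := rfl

theorem iR_injective : Function.Injective (iR R) := by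
  rw [injective_iff_map_eq_one]
  intro a ha
  obtain ⟨r, rfl⟩ : ∃ r, Abelianization.of r = a := QuotientGroup.mk_surjective a
  rw [iR_of] at ha
  have h := (QuotientGroup.eq_one_iff _).mp ha
  rw [← Subgroup.map_subtype_commutator] at h
  obtain ⟨s, hs, hsr⟩ := Subgroup.mem_map.mp h
  have e : s = r := Subtype.ext hsr
  rw [← e]
  exact (QuotientGroup.eq_one_iff s).mpr hs

/-- The homomorphism of the kernels. -/
noncomputable def kT : Abelianization R →* LL (quoQ R Q hQ) :=
  Abelianization.lift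
    { toFun := fun r => Multiplicative.ofAdd ⟨cT R hT v₀ r.1, by
        have h := cQ_del R hT hQ v₀ (QuotientGroup.mk r.1)
        rw [cQ_mk, gT_mk, (QuotientGroup.eq_one_iff r.1).mpr r.2, one_smul, sub_self] at h
        exact LinearMap.mem_ker.mpr h⟩
      map_one' := by
        apply Subtype.ext
        exact congrArg Multiplicative.toAdd (map_one (cR R hT v₀ hQ))
      map_mul' := fun r s => by
        apply Subtype.ext
        exact cT_mul_left R hT hQ v₀ r.2 s.1 }

theorem kT_of (r : R) :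
    labL (quoQ R Q hQ) (kT R hT hQ v₀ (Abelianization.of r)) = cT R hT v₀ r.1 := by
  unfold kT
  rw [Abelianization.lift_apply_of]
  rfl

theorem kT_surj : Function.Surjective (kT R hT hQ v₀) := by
  intro p
  obtain ⟨r, hr⟩ := cT_surj R hT hQ v₀ (labL (quoQ R Q hQ) p)
    (LinearMap.mem_ker.mp (Multiplicative.toAdd p).2)
  refine ⟨Abelianization.of r, labL_injective _ ?_⟩
  rw [kT_of, hr]

theorem kT_tor (hf : Fin' R V) (a : Abelianization R) (ha : a ∈ (kT R hT hQ v₀).ker) :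
    ∃ n : ℕ, n ≠ 0 ∧ a ^ n = 1 := by
  obtain ⟨r, rfl⟩ : ∃ r, Abelianization.of r = a := QuotientGroup.mk_surjective a
  apply cT_tor R hT hQ v₀ hf r
  rw [← kT_of R hT hQ v₀ r, MonoidHom.mem_ker.mp ha]
  rfl

/-- The homomorphism to the Magnus group is bijective on rational homology. -/
theorem fT_bij (hf : Fin' R V) (n : ℕ) : Function.Bijective (hqMap (fT R hT hQ v₀) n) := by
  let M := mMag (quo_eqv R hQ) (qmk R v₀) (gen_quo R hT hQ v₀)
  apply over_bij (gT R) M.γ _ _ (fT R hT hQ v₀) _ (iR R) M.fib (iR_injective R) M.fib_injective _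
    M.γ_fib _ _ (kT R hT hQ v₀) _
    (tors_sur (kT R hT hQ v₀) (kT_surj R hT hQ v₀) (kT_tor R hT hQ v₀ hf))
    (tors_inj (kT R hT hQ v₀) (kT_surj R hT hQ v₀) (kT_tor R hT hQ v₀ hf)) n
  · intro v
    obtain ⟨g, rfl⟩ := QuotientGroup.mk_surjective v
    exact ⟨QuotientGroup.mk g, rfl⟩
  · intro v
    obtain ⟨m, hm⟩ := gen_quo R hT hQ v₀ (v • qmk R v₀)
    obtain ⟨g, hg, -⟩ := M.sur m v hm
    exact ⟨g, hg⟩
  · intro x
    rfl
  · intro a
    obtain ⟨r, rfl⟩ : ∃ r, Abelianization.of r = a := QuotientGroup.mk_surjective a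
    rw [iR_of, gT_mk]
    exact (QuotientGroup.eq_one_iff r.1).mpr r.2
  · intro g hg
    obtain ⟨p, rfl⟩ := QuotientGroup.mk_surjective g
    have hp : p ∈ R := (QuotientGroup.eq_one_iff p).mp hg
    exact ⟨Abelianization.of ⟨p, hp⟩, rfl⟩
  · intro g hg
    have h : (quoQ R Q hQ).del (M.c g) = 0 := by rw [M.del, hg, one_smul, sub_self]
    refine ⟨Multiplicative.ofAdd ⟨M.c g, h⟩, ?_⟩
    apply M.inj
    · rw [M.γ_fib, hg]
    · rw [M.c_fib]; rfl
  · intro a
    obtain ⟨r, rfl⟩ : ∃ r, Abelianization.of r = a := QuotientGroup.mk_surjective a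
    apply M.inj
    · rw [M.γ_fib, iR_of]
      exact (QuotientGroup.eq_one_iff r.1).mpr r.2
    · rw [M.c_fib, kT_of, iR_of]
      rfl

include hT hQ in
theorem det_tree {F : GrpCat.{0} ⥤ ModuleCat.{0} ℚ} (hF : HasPT F) (v₀ : V)
    (h : ∀ v : V, Finite (MulAction.stabilizer G v)) : Det F (G ⧸ ⁅R, R⁆) := by
  have hf : Fin' R V := by
    intro r v hv
    have := h v
    have h1 : IsOfFinOrder (⟨r.1, hv⟩ : MulAction.stabilizer G v) := isOfFinOrder_of_finite _
    have h2 : IsOfFinOrder r.1 := (MulAction.stabilizer G v).subtype.isOfFinOrder h1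
    rw [isOfFinOrder_iff_pow_eq_one] at *
    obtain ⟨n, hn, h3⟩ := h2
    exact ⟨n, hn, Subtype.ext h3⟩
  have hM : Det F (mSub (quo_eqv R hQ) (qmk R v₀)) := by
    refine det_mag hF (quo_eqv R hQ) ?_ (mMag (quo_eqv R hQ) (qmk R v₀) (gen_quo R hT hQ v₀))
    intro x
    obtain ⟨v, rfl⟩ := qmk_surj R x
    exact stab_quo R v (h v)
  exact hM.of_inj (fT R hT hQ v₀) fun j x hx =>
    (injective_iff_map_eq_zero (hqMap (fT R hT hQ v₀) j)).mp (fT_bij R hT hQ v₀ hf j).1 x hx

end Tree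

end Pool.Agent.T6.H32.MG
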