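import Mathlib.Combinatorics.SimpleGraph.Acyclic
import Pool.Agent.T6.H32.MG.Tree

/-!
The first subdivision of a tree.
-/

set_option autoImplicit false

namespace Pool.Agent.T6.H32.MG

open Finsupp Pool.Agent.Y483 CategoryTheory Pool.Agent.Y483.PW Pool.Agent.R615.KU

section Sub

variable {V : Type} (T : SimpleGraph V)

/-- The edges. -/
abbrev Ed (T : SimpleGraph V) : Type := {e : Sym2 V // e ∈ T.edgeSet}

/-- The first subdivision: its vertices are the vertices and the edges, its edges are the darts. -/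
def sdQ : Edges (V ⊕ Ed T) T.Dart where
  s d := Sum.inl d.fst
  t d := Sum.inr ⟨d.edge, d.edge_mem⟩

/-- Vertices which are joined by a chain. -/
def Jn (x y : V ⊕ Ed T) : Prop := ∃ m : T.Dart →₀ ℤ, (sdQ T).del m = single y 1 - single x 1

variable {T}

theorem Jn.refl (x : V ⊕ Ed T) : Jn T x x := ⟨0, by rw [map_zero, sub_self]⟩

theorem Jn.symm {x y : V ⊕ Ed T} (h : Jn T x y) : Jn T y x := by
  obtain ⟨m, hm⟩ := h
  exact ⟨-m, by rw [map_neg, hm, neg_sub]⟩

theorem Jn.trans {x y z : V ⊕ Ed T} (h : Jn T x y) (h' : Jn T y z) : Jn T x z := by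
  obtain ⟨m, hm⟩ := h
  obtain ⟨m', hm'⟩ := h'
  exact ⟨m + m', by rw [map_add, hm, hm']; abel⟩

theorem Jn.dart (d : T.Dart) : Jn T (Sum.inl d.fst) (Sum.inr ⟨d.edge, d.edge_mem⟩) :=
  ⟨single d 1, (sdQ T).del_single d⟩

theorem Jn.adj {u v : V} (h : T.Adj u v) : Jn T (Sum.inl u) (Sum.inl v) := by
  let d : T.Dart := ⟨(u, v), h⟩
  have h1 := Jn.dart d
  have h2 := Jn.dart d.symm
  have e : (Sum.inr ⟨d.symm.edge, d.symm.edge_mem⟩ : V ⊕ Ed T) =
      Sum.inr ⟨d.edge, d.edge_mem⟩ := by
    congr 2
    exact d.edge_symm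
  rw [e] at h2
  exact h1.trans h2.symm

theorem Jn.walk {u v : V} (p : T.Walk u v) : Jn T (Sum.inl u) (Sum.inl v) := by
  induction p with
  | nil => exact Jn.refl _
  | cons h _ ih => exact (Jn.adj h).trans ih

theorem Jn.of_conn (hT : T.Connected) (x y : V ⊕ Ed T) : Jn T x y := by
  have h : ∀ x : V ⊕ Ed T, ∃ u : V, Jn T (Sum.inl u) x := by
    rintro (u | ⟨e, he⟩)
    · exact ⟨u, Jn.refl _⟩
    · induction e using Sym2.ind with
      | _ u v => exact ⟨u, Jn.dart (⟨(u, v), he⟩ : T.Dart)⟩
  obtain ⟨u, hu⟩ := h x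
  obtain ⟨v, hv⟩ := h y
  obtain ⟨p⟩ := hT.preconnected u v
  exact hu.symm.trans ((Jn.walk p).trans hv)

open Classical in
/-- The potential of a dart. -/
noncomputable def pot (x : T.Dart) : V ⊕ Ed T → ℤ
  | Sum.inl w => if (T.deleteEdges {x.edge}).Reachable x.fst w then -1 else 0
  | Sum.inr e => if e.1 = x.edge then 0 else
      if ∃ w ∈ e.1, (T.deleteEdges {x.edge}).Reachable x.fst w then -1 else 0

open Classical in
theorem pot_dart (hT : T.IsAcyclic) (x y : T.Dart) :
    pot x ((sdQ T).t y) - pot x ((sdQ T).s y) = if y = x then 1 else 0 := by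
  have hb : ¬ (T.deleteEdges {x.edge}).Reachable x.fst x.snd := by
    have h := (SimpleGraph.isAcyclic_iff_forall_isBridge.mp hT) x.edge_mem
    exact SimpleGraph.isBridge_iff.mp h
  change (if y.edge = x.edge then (0 : ℤ) else
      if ∃ w ∈ y.edge, (T.deleteEdges {x.edge}).Reachable x.fst w then -1 else 0) -
      (if (T.deleteEdges {x.edge}).Reachable x.fst y.fst then -1 else 0) = _
  by_cases h : y.edge = x.edge
  · rw [if_pos h]
    rcases (SimpleGraph.dart_edge_eq_iff y x).mp h with rfl | rfl
    · rw [if_pos (SimpleGraph.Reachable.refl _), if_pos rfl]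
      norm_num
    · have h1 : ¬ (T.deleteEdges {x.edge}).Reachable x.fst x.symm.fst := hb
      rw [if_neg h1, if_neg (fun h2 => SimpleGraph.Dart.symm_ne x h2), sub_zero]
  · have hne : y ≠ x := fun h2 => h (by rw [h2])
    rw [if_neg h, if_neg hne]
    have hadj : (T.deleteEdges {x.edge}).Adj y.fst y.snd := by
      rw [SimpleGraph.deleteEdges_adj]
      exact ⟨y.adj, h⟩
    have h1 : (∃ w ∈ y.edge, (T.deleteEdges {x.edge}).Reachable x.fst w) ↔
        (T.deleteEdges {x.edge}).Reachable x.fst y.fst := by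
      constructor
      · rintro ⟨w, hw, hr⟩
        have hw' : w ∈ s(y.fst, y.snd) := hw
        rcases Sym2.mem_iff.mp hw' with rfl | rfl
        · exact hr
        · exact hr.trans hadj.symm.reachable
      · intro hr
        exact ⟨y.fst, Sym2.mem_mk_left y.fst y.snd, hr⟩
    simp only [h1, sub_self]

theorem isTr_sd (hT : T.IsTree) : IsTr (sdQ T) where
  conn x y := Jn.of_conn hT.connected x y
  acyc m m' h := by
    classical
    have key : ∀ (x : T.Dart) (m : T.Dart →₀ ℤ),
        Finsupp.linearCombination ℤ (pot x) ((sdQ T).del m) = m x := by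
      intro x m
      apply int_ind (fun m => Finsupp.linearCombination ℤ (pot x) ((sdQ T).del m))
        (fun m => m x) (fun a b => by simp only [map_add])
        (fun a b => rfl)
      intro y
      simp only [Edges.del_single, map_sub, Finsupp.linearCombination_single, one_smul,
        pot_dart hT.isAcyclic, Finsupp.single_apply]
    ext x
    rw [← key x m, h, key]

end Sub

section Act

variable {G V : Type} [Group G] [MulAction G V] {T : SimpleGraph V}

/-- The action on the edges. -/
@[reducible] def edAct (hG : ∀ (g : G) (u v : V), T.Adj u v → T.Adj (g • u) (g • v)) :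
    MulAction G (Ed T) where
  smul g e := ⟨e.1.map (fun v => g • v), by
    obtain ⟨e, he⟩ := e
    induction e using Sym2.ind with
    | _ u v => exact hG g u v he⟩
  one_smul e := by
    apply Subtype.ext
    change e.1.map (fun v => (1 : G) • v) = e.1
    simp
  mul_smul g h e := by
    apply Subtype.ext
    change e.1.map (fun v => (g * h) • v) = (e.1.map (fun v => h • v)).map (fun v => g • v)
    rw [Sym2.map_map]
    congr 1
    funext v
    exact mul_smul g h v

/-- The action on the darts. -/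
@[reducible] def daAct (hG : ∀ (g : G) (u v : V), T.Adj u v → T.Adj (g • u) (g • v)) :
    MulAction G T.Dart where
  smul g d := ⟨(g • d.fst, g • d.snd), hG g _ _ d.adj⟩
  one_smul d := by
    apply SimpleGraph.Dart.ext
    exact Prod.ext (one_smul G d.fst) (one_smul G d.snd)
  mul_smul g h d := by
    apply SimpleGraph.Dart.ext
    exact Prod.ext (mul_smul g h d.fst) (mul_smul g h d.snd)

theorem move_finite (h : ∀ v : V, Finite (MulAction.stabilizer G v)) (u v : V) :
    {g : G | g • u = v}.Finite := by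
  rcases Set.eq_empty_or_nonempty {g : G | g • u = v} with h0 | ⟨g₀, hg₀⟩
  · rw [h0]; exact Set.finite_empty
  · have hf : (MulAction.stabilizer G u : Set G).Finite := Set.toFinite _
    refine (hf.image (fun g => g₀ * g)).subset ?_
    intro g hg
    refine ⟨g₀⁻¹ * g, ?_, by simp⟩
    have h1 : g • u = v := hg
    have h2 : g₀ • u = v := hg₀
    change (g₀⁻¹ * g) • u = u
    rw [mul_smul, h1, ← h2, inv_smul_smul]

/-- **Groups acting on trees.** -/
theorem det_simple {F : GrpCat.{0} ⥤ ModuleCat.{0} ℚ} (hF : HasPT F) (hT : T.IsTree)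
    (hG : ∀ (g : G) (u v : V), T.Adj u v → T.Adj (g • u) (g • v))
    (h : ∀ v : V, Finite (MulAction.stabilizer G v)) (R : Subgroup G) [R.Normal] :
    Det F (G ⧸ ⁅R, R⁆) := by
  let _ := edAct hG
  let _ := daAct hG
  have hQ : Eqv G (sdQ T) := by
    refine ⟨fun g e => rfl, fun g e => ?_⟩
    change (Sum.inr _ : V ⊕ Ed T) = g • Sum.inr _
    rw [Sum.smul_inr]
    rfl
  obtain ⟨v₀⟩ := hT.connected.nonempty
  refine det_tree R (isTr_sd hT) hQ hF (Sum.inl v₀) ?_
  rintro (v | ⟨e, he⟩)
  · have := h v
    refine Finite.of_injective (fun g : MulAction.stabilizer G (Sum.inl v : V ⊕ Ed T) =>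
      (⟨g.1, Sum.inl_injective g.2⟩ : MulAction.stabilizer G v)) ?_
    intro g g' hg
    have h1 : g.1 = g'.1 := Subtype.mk.inj hg
    exact Subtype.ext h1
  · induction e using Sym2.ind with
    | _ u v =>
      have hf : ({g : G | g • u = u} ∪ {g : G | g • u = v}).Finite :=
        (move_finite h u u).union (move_finite h u v)
      have hs : {g : G | g • (Sum.inr ⟨s(u, v), he⟩ : V ⊕ Ed T) = Sum.inr ⟨s(u, v), he⟩} ⊆
          {g : G | g • u = u} ∪ {g : G | g • u = v} := by
        intro g hg
        have h1 : (⟨s(g • u, g • v), hG g u v he⟩ : Ed T) = ⟨s(u, v), he⟩ :=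
          Sum.inr_injective hg
        have h2 : s(g • u, g • v) = s(u, v) := congrArg Subtype.val h1
        have h3 : g • u ∈ s(u, v) := by
          rw [← h2]
          exact Sym2.mem_mk_left _ _
        exact Sym2.mem_iff.mp h3
      exact (hf.subset hs).to_subtype

end Act

end Pool.Agent.T6.H32.MG
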