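import Pool.Agent.T6.H32.MG.Cpl

/-!
The homology of the Magnus group of a graph with an action of a group with finite vertex stabilizers:
in positive degrees a class whose image in the semidirect product comes from the complement vanishes.
-/

set_option autoImplicit false

namespace Pool.Agent.T6.H32.MG

open Finsupp Pool.Agent.Y483

section Fibre

variable {Γ V E : Type} [Group Γ] [MulAction Γ V] [MulAction Γ E] (Q : Edges V E) {v₀ : V}

variable {Q} {G : Type} [Group G] (M : Mag Γ Q v₀ G)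

theorem Mag.exists_fib (p : LL Q) : ∃ g, M.γ g = 1 ∧ M.c g = labL Q p :=
  M.sur (labL Q p) 1 (by
    rw [one_smul, sub_self]
    exact LinearMap.mem_ker.mp (Multiplicative.toAdd p).2)

/-- The element of `G` over the identity with a given label. -/
noncomputable def Mag.fib : LL Q →* G where
  toFun p := (M.exists_fib p).choose
  map_one' := by
    apply M.inj
    · rw [(M.exists_fib 1).choose_spec.1, map_one]
    · rw [(M.exists_fib 1).choose_spec.2]
      have h := M.mul 1 1
      rw [mul_one, map_one, gE_one] at h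
      exact (left_eq_add.mp h).symm
  map_mul' p p' := by
    apply M.inj
    · rw [(M.exists_fib _).choose_spec.1, map_mul, (M.exists_fib _).choose_spec.1,
        (M.exists_fib _).choose_spec.1, mul_one]
    · rw [(M.exists_fib _).choose_spec.2, M.mul, (M.exists_fib _).choose_spec.1,
        (M.exists_fib _).choose_spec.2, (M.exists_fib _).choose_spec.2, gE_one]
      rfl

theorem Mag.γ_fib (p : LL Q) : M.γ (M.fib p) = 1 := (M.exists_fib p).choose_spec.1

theorem Mag.c_fib (p : LL Q) : M.c (M.fib p) = labL Q p := (M.exists_fib p).choose_spec.2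

theorem Mag.fib_injective : Function.Injective M.fib := by
  intro p p' h
  apply labL_injective Q
  rw [← M.c_fib, h, M.c_fib]

/-- The base point. -/
noncomputable def augW {V : Type} (v₀ : V) (n : ℕ) : Aug V n := ⟨single v₀ n, degZ_single _ _⟩

include M in
theorem Mag.exists_del (u : V →₀ ℤ) :
    ∃ p, Q.del p = u - (degZ V u) • single v₀ (1 : ℤ) := by
  choose m hm using M.gen
  refine ⟨Finsupp.linearCombination ℤ m u, ?_⟩
  apply int_ind (fun u => Q.del (Finsupp.linearCombination ℤ m u))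
    (fun u => u - (degZ V u) • single v₀ (1 : ℤ))
  · intro a b; simp only [map_add]
  · intro a b; simp only [map_add]; rw [add_smul]; abel
  · intro v
    simp only [Finsupp.linearCombination_single, one_smul, hm, degZ_single]

theorem Mag.trans_B (v : Γ) : ∃ g, M.σB g 1 = v := by
  obtain ⟨m, hm⟩ := M.gen (v • v₀)
  obtain ⟨g, hg, -⟩ := M.sur m v hm
  exact ⟨g, by rw [M.σB_apply, hg, mul_one]⟩

include M in
theorem Mag.trans_B' (n : ℕ) (a : Aug V n) : ∃ p, actAug Q n p (augW v₀ n) = a := by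
  obtain ⟨p, hp⟩ := M.exists_del ((augW v₀ n).1 - a.1)
  refine ⟨Multiplicative.ofAdd p, ?_⟩
  apply Subtype.ext
  rw [actAug_val]
  change (augW v₀ n).1 - Q.del p = a.1
  rw [hp, map_sub, (augW v₀ n).2, a.2, sub_self, zero_smul]
  abel

/-- Cycles of the first complex. -/
theorem Mag.shap (q : ℕ) (z : Bq Γ G q) (hz : Cyc M.repB q z) :
    ∃ y : T q (LL Q) ℚ, Cyc (trivR (LL Q) ℚ) q y ∧
      z - mp q M.fib (lsingle (1 : Γ)) y ∈ LinearMap.range (dd M.repB q) := by
  apply shapiro M.σB (1 : Γ) M.trans_B M.fib M.fib_injective _ _ (trivR (LL Q) ℚ) (fun _ => rfl) q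
    z hz
  · intro p
    rw [M.σB_apply, M.γ_fib, one_mul]
  · intro g hg
    rw [M.σB_apply, mul_one] at hg
    have h : Q.del (M.c g) = 0 := by rw [M.del, hg, one_smul, sub_self]
    refine ⟨Multiplicative.ofAdd ⟨M.c g, h⟩, ?_⟩
    apply M.inj
    · rw [M.γ_fib, hg]
    · rw [M.c_fib]; rfl

include M in
/-- Cycles of the second complex. -/
theorem Mag.shap' (n q : ℕ) (z : T q (HH E) (MM V n)) (hz : Cyc (repM Q n) q z) :
    ∃ y : T q (LL Q) ℚ, Cyc (trivR (LL Q) ℚ) q y ∧
      z - mp q (inclL Q) (lsingle (augW v₀ n)) y ∈ LinearMap.range (dd (repM Q n) q) := by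
  apply shapiro (actAug Q n) (augW v₀ n) (M.trans_B' n) (inclL Q) inclL_injective _ _
    (trivR (LL Q) ℚ) (fun _ => rfl) q z hz
  · intro p
    apply Subtype.ext
    rw [actAug_val]
    change (augW v₀ n).1 - Q.del (Multiplicative.toAdd p).1 = (augW v₀ n).1
    rw [LinearMap.mem_ker.mp (Multiplicative.toAdd p).2, sub_zero]
  · intro p hp
    have h := congrArg Subtype.val hp
    rw [actAug_val, sub_eq_self] at h
    exact ⟨Multiplicative.ofAdd ⟨p.toAdd, h⟩, rfl⟩

theorem Mag.cyc_fib (q : ℕ) (y : T q (LL Q) ℚ) (hy : Cyc (trivR (LL Q) ℚ) q y) :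
    Cyc M.repB q (mp q M.fib (lsingle (1 : Γ)) y) := by
  apply cyc_mp (ρ := trivR (LL Q) ℚ) (τ := M.repB) M.fib (lsingle (1 : Γ)) _ q y hy
  intro g m
  rw [lsingle_apply, lsingle_apply, permRep_single, M.σB_apply, M.γ_fib, one_mul]
  rfl

theorem lab_partialProd {A G' : Type*} [AddCommGroup A] [Group G'] (c : G' → A)
    (hc : ∀ g h, c (g * h) = c g + c h) {q : ℕ} (x : Fin q → G') (i : Fin q) :
    c (Fin.partialProd x i.succ) - c (Fin.partialProd x i.castSucc) = c (x i) := by
  rw [Fin.partialProd_succ, hc]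
  abel

theorem Mag.pairB_fib (q : ℕ) (ω : Frm (E →₀ ℤ) q) (y : T q (LL Q) ℚ) :
    M.pairB q ω (mp q M.fib (lsingle (1 : Γ)) y) = ipair (labL Q) q LinearMap.id ω y := by
  have h : (M.pairB q ω) ∘ₗ (mp q M.fib (lsingle (1 : Γ))) =
      ipair (labL Q) q LinearMap.id ω := by
    apply T_ext
    intro x r
    rw [LinearMap.comp_apply, mp_single, lsingle_apply, Mag.pairB, LinearMap.comp_apply,
      sg_single, comb_single, hpair_single, ipair_single, LinearMap.id_apply]
    congr 2
    funext i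
    have hP : ∀ j, (Fin.partialProd (M.fib ∘ x) j) = M.fib (Fin.partialProd x j) := by
      intro j
      induction j using Fin.induction with
      | zero => simp
      | succ i ih => rw [Fin.partialProd_succ, Fin.partialProd_succ, ih, map_mul]; rfl
    rw [hP, hP, Mag.lab, Mag.lab, inv_one, gE_one, gE_one, M.c_fib, M.c_fib,
      lab_partialProd (labL Q) (labL_mul Q)]
  exact DFunLike.congr_fun h y

theorem pairM_incl (n q : ℕ) (ω : Frm (E →₀ ℤ) q) (y : T q (LL Q) ℚ) :
    pairM n q ω (mp q (inclL Q) (lsingle (augW v₀ n)) y) = ipair (labL Q) q LinearMap.id ω y := by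
  have h : (pairM n q ω) ∘ₗ (mp q (inclL Q) (lsingle (augW v₀ n))) =
      ipair (labL Q) q LinearMap.id ω := by
    apply T_ext
    intro x r
    rw [LinearMap.comp_apply, mp_single, lsingle_apply, pairM_single, sumC_single, ipair_single]
    rfl
  exact DFunLike.congr_fun h y

/-- Detection in the first complex. -/
theorem Mag.detectB (q : ℕ) (z : Bq Γ G q) (hz : Cyc M.repB q z)
    (h : ∀ ω : Frm (E →₀ ℤ) q, M.pairB q ω z = 0) : z ∈ LinearMap.range (dd M.repB q) := by
  obtain ⟨y, hy, v, hv⟩ := M.shap q z hz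
  have hy0 : y ∈ LinearMap.range (dd (trivR (LL Q) ℚ) q) := by
    apply detect (labL Q) (labL_mul Q) (labL_injective Q) q y hy
    intro ω
    rw [← M.pairB_fib]
    have h1 := M.pairB_dd q ω v
    rw [hv, map_sub, h, zero_sub, neg_eq_zero] at h1
    exact h1
  have h2 : mp q M.fib (lsingle (1 : Γ)) y ∈ LinearMap.range (dd M.repB q) := by
    apply range_mp (ρ := trivR (LL Q) ℚ) (τ := M.repB) M.fib (lsingle (1 : Γ)) _ q y hy0
    intro g m
    rw [lsingle_apply, lsingle_apply, permRep_single, M.σB_apply, M.γ_fib, one_mul]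
    rfl
  have h3 := Submodule.add_mem _ (⟨v, hv⟩ : z - mp q M.fib (lsingle (1 : Γ)) y ∈
    LinearMap.range (dd M.repB q)) h2
  rwa [sub_add_cancel] at h3

include M in
/-- Detection in the second complex. -/
theorem Mag.detectB' (n q : ℕ) (z : T q (HH E) (MM V n)) (hz : Cyc (repM Q n) q z)
    (h : ∀ ω : Frm (E →₀ ℤ) q, pairM n q ω z = 0) : z ∈ LinearMap.range (dd (repM Q n) q) := by
  obtain ⟨y, hy, v, hv⟩ := M.shap' n q z hz
  have hy0 : y ∈ LinearMap.range (dd (trivR (LL Q) ℚ) q) := by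
    apply detect (labL Q) (labL_mul Q) (labL_injective Q) q y hy
    intro ω
    rw [← pairM_incl (v₀ := v₀) n]
    have h1 := pairM_dd Q n q ω v
    rw [hv, map_sub, h, zero_sub, neg_eq_zero] at h1
    exact h1
  have h2 : mp q (inclL Q) (lsingle (augW v₀ n)) y ∈ LinearMap.range (dd (repM Q n) q) := by
    apply range_mp (ρ := trivR (LL Q) ℚ) (τ := repM Q n) (inclL Q) (lsingle (augW v₀ n)) _ q y hy0
    intro p m
    rw [lsingle_apply, lsingle_apply, permRep_single]
    congr 1
    apply Subtype.ext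
    rw [actAug_val]
    change (augW v₀ n).1 = (augW v₀ n).1 - Q.del (Multiplicative.toAdd p).1
    rw [LinearMap.mem_ker.mp (Multiplicative.toAdd p).2, sub_zero]
  have h3 := Submodule.add_mem _ (⟨v, hv⟩ : z - mp q (inclL Q) (lsingle (augW v₀ n)) y ∈
    LinearMap.range (dd (repM Q n) q)) h2
  rwa [sub_add_cancel] at h3

theorem Mag.cyc_f (hQ : Eqv Γ Q) (n q : ℕ) (z : Bq Γ G q) (hz : Cyc M.repB q z) :
    Cyc (repM Q n) q (M.f n q z) := by
  cases q with
  | zero => exact Cyc.zero _ _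
  | succ q =>
    rw [cyc_succ] at *
    rw [M.f_dd hQ, hz, map_zero]

/-- The comparison map is injective on homology up to degree `n`. -/
theorem Mag.inj_f (n q : ℕ) (hq : q ≤ n) (z : Bq Γ G q) (hz : Cyc M.repB q z)
    (h : M.f n q z ∈ LinearMap.range (dd (repM Q n) q)) : z ∈ LinearMap.range (dd M.repB q) := by
  apply M.detectB q z hz
  intro ω
  obtain ⟨v, hv⟩ := h
  have h1 := M.pairM_f n q ω z
  rw [← hv, pairM_dd] at h1
  have h2 : (n.descFactorial q : ℚ) ≠ 0 := by
    have h3 : n.descFactorial q ≠ 0 := fun h4 =>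
      absurd (Nat.descFactorial_eq_zero_iff_lt.mp h4) (by omega)
    exact_mod_cast h3
  rcases mul_eq_zero.mp h1.symm with h3 | h3
  · exact absurd h3 h2
  · exact h3

/-- The comparison map is surjective on homology up to degree `n`. -/
theorem Mag.surj_f (hQ : Eqv Γ Q) (n q : ℕ) (hq : q ≤ n) (z' : T q (HH E) (MM V n))
    (hz' : Cyc (repM Q n) q z') :
    ∃ z : Bq Γ G q, Cyc M.repB q z ∧ z' - M.f n q z ∈ LinearMap.range (dd (repM Q n) q) := by
  obtain ⟨y, hy, v, hv⟩ := M.shap' n q z' hz'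
  have h2 : (n.descFactorial q : ℚ) ≠ 0 := by
    have h3 : n.descFactorial q ≠ 0 := fun h4 =>
      absurd (Nat.descFactorial_eq_zero_iff_lt.mp h4) (by omega)
    exact_mod_cast h3
  set z : Bq Γ G q := (n.descFactorial q : ℚ)⁻¹ • mp q M.fib (lsingle (1 : Γ)) y with hzdef
  have hz : Cyc M.repB q z := by
    have h4 := M.cyc_fib q y hy
    cases q with
    | zero => exact Cyc.zero _ _
    | succ q =>
      rw [cyc_succ] at *
      rw [hzdef, map_smul, h4, smul_zero]
  refine ⟨z, hz, ?_⟩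
  apply M.detectB' n q
  · have h5 := M.cyc_f hQ n q z hz
    cases q with
    | zero => exact Cyc.zero _ _
    | succ q =>
      rw [cyc_succ] at *
      rw [map_sub, hz', h5, sub_zero]
  · intro ω
    rw [map_sub, M.pairM_f, hzdef, map_smul, M.pairB_fib, smul_eq_mul, ← mul_assoc,
      mul_inv_cancel₀ h2, one_mul, sub_eq_zero, ← pairM_incl (v₀ := v₀) n]
    have h6 := pairM_dd Q n q ω v
    rw [hv, map_sub, sub_eq_zero] at h6
    exact h6

end Fibre

section Semidirect

variable {Γ V E : Type} [Group Γ] [MulAction Γ V] [MulAction Γ E]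

variable {Q : Edges V E} {v₀ : V} {G : Type} [Group G] (M : Mag Γ Q v₀ G)

/-- The embedding of `G` in the semidirect product. -/
noncomputable def Mag.mu : G →* WE Γ E where
  toFun g := ⟨Multiplicative.ofAdd (M.c g), M.γ g⟩
  map_one' := by
    apply SemidirectProduct.ext
    · have h := M.mul 1 1
      rw [mul_one, map_one, gE_one] at h
      change Multiplicative.ofAdd (M.c 1) = 1
      rw [left_eq_add.mp h]; rfl
    · exact map_one M.γ
  map_mul' g h := by
    apply SemidirectProduct.ext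
    · change Multiplicative.ofAdd (M.c (g * h)) = _
      rw [M.mul]; rfl
    · exact map_mul M.γ g h

variable (Q)

/-- The top class, on homogeneous chains of the semidirect product. -/
noncomputable def Uh (n : ℕ) : T (n + 1) (WE Γ E) ℚ →ₗ[ℚ] T n (HH E) (MM V n) :=
  (Th Q 0 n n) ∘ₗ (mp (n + 1) lw LinearMap.id)

variable {Q}

theorem Uh_tr (hQ : Eqv Γ Q) (n : ℕ) (w : WE Γ E) (z : T (n + 1) (WE Γ E) ℚ) :
    Uh Q n (tr (trivR (WE Γ E) ℚ) (n + 1) w z) = wC n n w.right (Uh Q n z) := by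
  have h : (Uh Q n) ∘ₗ (tr (trivR (WE Γ E) ℚ) (n + 1) w) = (wC n n w.right) ∘ₗ (Uh Q n) := by
    apply T_ext
    intro x r
    rw [LinearMap.comp_apply, LinearMap.comp_apply, tr, mp_single, Uh, LinearMap.comp_apply,
      LinearMap.comp_apply, mp_single, mp_single]
    have e1 : (single (lw ∘ (fun x => w * x) ∘ x)
        ((LinearMap.id : ℚ →ₗ[ℚ] ℚ) (trivR (WE Γ E) ℚ w r)) : T (n + 1) (E →₀ ℤ) ℚ) =
        mp (n + 1) (fun y => lw w + y) LinearMap.id (mp (n + 1) (gE w.right) LinearMap.id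
          (single (lw ∘ x) ((LinearMap.id : ℚ →ₗ[ℚ] ℚ) r))) := by
      rw [mp_single, mp_single]
      rfl
    rw [e1, Th_translate, Th_top Q (0 + Q.del (lw w)) (wV w.right 0), Th_wequiv hQ]
  exact DFunLike.congr_fun h z

theorem Uh_bd (n : ℕ) (z : T (n + 2) (WE Γ E) ℚ) : Uh Q n (bd (n + 1) z) = 0 := by
  rw [Uh, LinearMap.comp_apply, ← bd_mp, ← dd_Th, Th_vanish Q 0 n (n + 1) (by omega),
    LinearMap.zero_apply, map_zero]

theorem Uh_range (hQ : Eqv Γ Q) (n : ℕ) (z : T (n + 1) (WE Γ E) ℚ) :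
    Uh Q n (sg n (dd (trivR (WE Γ E) ℚ) n z)) ∈ augS (rV Γ V E n n) := by
  have h := factor (trivR (WE Γ E) ℚ) n ((augS (rV Γ V E n n)).mkQ ∘ₗ (Uh Q n)) ?_
    (bd (n + 1) (sg (n + 1) z))
  · rw [LinearMap.comp_apply, LinearMap.comp_apply, Uh_bd, map_zero, pp_bd, pp_sg] at h
    rw [← Submodule.Quotient.mk_eq_zero]
    exact h.symm
  · intro w y
    rw [LinearMap.comp_apply, LinearMap.comp_apply, Uh_tr hQ, ← sub_eq_zero, ← map_sub,
      Submodule.mkQ_apply, Submodule.Quotient.mk_eq_zero]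
    exact Submodule.subset_span ⟨w.right, Uh Q n y, rfl⟩

theorem Th_const (a : V →₀ ℤ) (k : ℕ) (u : E →₀ ℤ) (r : ℚ) :
    Th Q a (k + 1) (k + 1) (single (fun _ => u) r) = 0 := by
  rw [single_eq_cone, Th_succ_succ, Th_vanish Q a k (k + 1) (by omega), LinearMap.zero_apply,
    map_zero, zero_add, single_eq_cone k, Lam_cone]
  have e : Fin.tail (fun _ : Fin (k + 2) => u) 0 - u = 0 := sub_self u
  change SS Q k k (Fin.tail (fun _ : Fin (k + 2) => u) 0 - u) _ = 0
  rw [e, map_zero, LinearMap.zero_apply]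

theorem Uh_inr (n : ℕ) (y : T (n + 1) Γ ℚ) :
    Uh Q (n + 1) (sg (n + 1) (mp (n + 1) (SemidirectProduct.inr : Γ →* WE Γ E)
      LinearMap.id y)) = 0 := by
  have h : (Uh Q (n + 1)) ∘ₗ (sg (n + 1)) ∘ₗ (mp (n + 1) (SemidirectProduct.inr : Γ →* WE Γ E)
      LinearMap.id) = 0 := by
    apply T_ext
    intro x r
    rw [LinearMap.comp_apply, LinearMap.comp_apply, mp_single, sg_single, Uh,
      LinearMap.comp_apply, mp_single]
    have e : lw ∘ Fin.partialProd ((SemidirectProduct.inr : Γ →* WE Γ E) ∘ x) = fun _ => 0 := by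
      funext j
      have hP : ∀ j, (Fin.partialProd ((SemidirectProduct.inr : Γ →* WE Γ E) ∘ x) j) =
          SemidirectProduct.inr (Fin.partialProd x j) := by
        intro j
        induction j using Fin.induction with
        | zero => simp
        | succ i ih => rw [Fin.partialProd_succ, Fin.partialProd_succ, ih, map_mul]; rfl
      rw [Function.comp_apply, hP]
      rfl
    rw [e, Th_const]
    rfl
  exact DFunLike.congr_fun h y

theorem Mag.Uh_mu (n : ℕ) (x : T n G ℚ) :
    Uh Q n (sg n (mp n M.mu LinearMap.id x)) = M.f n n (mp n id (lsingle (1 : Γ)) x) := by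
  have h : (Uh Q n) ∘ₗ (sg n) ∘ₗ (mp n M.mu LinearMap.id) =
      (M.f n n) ∘ₗ (mp n id (lsingle (1 : Γ))) := by
    apply T_ext
    intro x r
    rw [LinearMap.comp_apply, LinearMap.comp_apply, LinearMap.comp_apply, mp_single, sg_single,
      Uh, LinearMap.comp_apply, mp_single, mp_single, lsingle_apply, M.f_single, Mag.Fv,
      LinearMap.comp_apply, mp_single, Th_top Q 0 (single ((1 : Γ)⁻¹ • v₀) 1)]
    congr 2
    funext j
    have hP : ∀ j, (Fin.partialProd (M.mu ∘ x) j) = M.mu (Fin.partialProd x j) := by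
      intro j
      induction j using Fin.induction with
      | zero => simp
      | succ i ih => rw [Fin.partialProd_succ, Fin.partialProd_succ, ih, map_mul]; rfl
    rw [Function.comp_apply, hP, Function.comp_apply, Mag.lab, inv_one, gE_one]
    rfl
  exact DFunLike.congr_fun h x

/-- **Theorem H.** A cycle of positive degree of `G` whose image in the semidirect product is
homologous to a chain of `Γ` is a boundary. -/
theorem Mag.theoremH (Wt₀ : Wts Γ V) (hQ : Eqv Γ Q) (n : ℕ) (x : T (n + 1) G ℚ)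
    (hx : dd (trivR G ℚ) n x = 0) (y : T (n + 1) Γ ℚ)
    (hxy : mp (n + 1) M.mu LinearMap.id x - mp (n + 1) (SemidirectProduct.inr : Γ →* WE Γ E)
      LinearMap.id y ∈ LinearMap.range (dd (trivR (WE Γ E) ℚ) (n + 1))) :
    x ∈ LinearMap.range (dd (trivR G ℚ) (n + 1)) := by
  have haug : ∀ (g : G) (m : Γ →₀ ℚ), sumC Γ (M.repB g m) = trivR G ℚ g (sumC Γ m) := by
    intro g m
    rw [sumC_permRep]; rfl
  set xt : Bq Γ G (n + 1) := mp (n + 1) id (lsingle (1 : Γ)) x with hxt
  have hxt' : mp (n + 1) (id : G → G) (sumC Γ) xt = x := by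
    rw [hxt, mp_mp]
    have e : (sumC Γ) ∘ₗ (lsingle (1 : Γ)) = LinearMap.id := by
      apply LinearMap.ext
      intro r
      simp
    rw [e]
    exact mp_id _ _
  have h1 : dd M.repB n xt ∈ augS (rB Γ G n) := by
    rw [augS_rB]
    have h := dd_mp (ρ := M.repB) (τ := trivR G ℚ) (MonoidHom.id G) (sumC Γ) haug n xt
    have h' : mp (n + 1) (MonoidHom.id G) (sumC Γ) xt = x := hxt'
    rw [h', hx] at h
    exact h.symm
  have h2 : M.f (n + 1) (n + 1) xt ∈ augS (rV Γ V E (n + 1) (n + 1)) := by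
    rw [hxt, ← M.Uh_mu]
    obtain ⟨v, hv⟩ := hxy
    have h := Uh_range hQ (n + 1) v
    rw [hv, map_sub, map_sub, Uh_inr, sub_zero] at h
    exact h
  obtain ⟨u, hu⟩ := cone_lemma (Γ := Γ) (Bq Γ G) (fun q => T q (HH E) (MM V (n + 1)))
    (fun q => rB Γ G q) (fun q => rV Γ V E (n + 1) q) (fun q => dd M.repB q)
    (fun q => dd (repM Q (n + 1)) q) (fun q => M.f (n + 1) q) (n + 1)
    (fun q b => Cyc M.repB q b) (fun q b => Cyc (repM Q (n + 1)) q b)
    (fun b => Cyc.zero _ _) (fun q b => cyc_succ _ _ _) (fun b => Cyc.zero _ _)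
    (fun q b => cyc_succ _ _ _) (fun q b => dd_dd _ _ _) (fun q b => dd_dd _ _ _)
    (fun q b => M.f_dd hQ (n + 1) q b) (fun q g b => dd_rB M q g b)
    (fun q g b => dd_wC hQ (n + 1) q g b) (fun q g b => M.f_equiv hQ (n + 1) q g b)
    (fun q => avg_rB q) (fun q => avg_rV Wt₀ (n + 1) q (Nat.succ_ne_zero n))
    (fun q hq b' hb' => M.surj_f hQ (n + 1) q hq b' hb')
    (fun q hq b hb h => M.inj_f (n + 1) q hq b hb h) n rfl xt h1 h2
  rw [augS_rB, map_sub, hxt', sub_eq_zero] at hu
  refine ⟨mp (n + 2) (id : G → G) (sumC Γ) u, ?_⟩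
  rw [hu]
  exact dd_mp (ρ := M.repB) (τ := trivR G ℚ) (MonoidHom.id G) (sumC Γ) haug (n + 1) u

end Semidirect

end Pool.Agent.T6.H32.MG
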